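import Pool.Agent.Lib.SE.W.Defs

/-!
# PROJECT SE, part S6 (helper96): labels

* `ded`: for every label `ψ` of `E` there are `ν_k ∈ K`, `λ_k ∈ E` with
  `∑_k ν_k φ(λ_k) = [φ = ψ]` for all labels `φ`.
* `sum_gal`: the sum of the conjugates is rational.
-/

set_option autoImplicit false

open scoped ComplexConjugate
open HC

noncomputable section

namespace SE
namespace S6

variable {X : GF} {E : Type} [Field E]

theorem gl_apply (g : X.G) (φ : E →+* X.K) (x : E) : gl g φ x = g (φ x) := rfl

theorem gl_one (φ : E →+* X.K) : gl (1 : X.G) φ = φ := by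
  ext x
  rfl

theorem gl_mul (g h : X.G) (φ : E →+* X.K) : gl (g * h) φ = gl g (gl h φ) := by
  ext x
  rfl

theorem gl_inj (g : X.G) {φ ψ : E →+* X.K} (h : gl g φ = gl g ψ) : φ = ψ := by
  ext x
  have h1 := RingHom.congr_fun h x
  rw [gl_apply, gl_apply] at h1
  exact g.injective h1

/-- Independence of the labels. -/
theorem ded [NumberField E] (ψ : E →+* X.K) :
    ∃ (n : ℕ) (ν : Fin n → X.K) (lam : Fin n → E), ∑ k, ν k * ψ (lam k) = 1 ∧
      ∀ φ : E →+* X.K, φ ≠ ψ → ∑ k, ν k * φ (lam k) = 0 := by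
  classical
  have hli : LinearIndependent X.K (fun φ : E →+* X.K => (φ : E → X.K)) := by
    have h1 := linearIndependent_monoidHom E X.K
    have h2 : Function.Injective (fun φ : E →+* X.K => (φ : E →* X.K)) := by
      intro φ φ' h
      ext x
      exact DFunLike.congr_fun h x
    exact h1.comp (fun φ : E →+* X.K => (φ : E →* X.K)) h2
  have hsp : Submodule.span X.K (Set.range fun x : E => (fun φ : E →+* X.K => φ x)) = ⊤ := by
    by_contra hne
    obtain ⟨f, hf, hf0⟩ := Submodule.exists_le_ker_of_lt_top _ (lt_top_iff_ne_top.2 hne)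
    apply hf
    have h3 : ∀ x : E, ∑ φ : E →+* X.K, f (Pi.single φ 1) * φ x = 0 := by
      intro x
      have h4 : f (fun φ : E →+* X.K => φ x) = 0 :=
        hf0 (Submodule.subset_span ⟨x, rfl⟩)
      have h5 : (fun φ : E →+* X.K => φ x) =
          ∑ φ : E →+* X.K, φ x • (Pi.single φ 1 : (E →+* X.K) → X.K) := by
        funext φ
        rw [Finset.sum_apply, Finset.sum_eq_single φ]
        · rw [Pi.smul_apply, Pi.single_eq_same, smul_eq_mul, mul_one]
        · intro φ' _ h
          rw [Pi.smul_apply, Pi.single_eq_of_ne (Ne.symm h), smul_zero]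
        · intro h
          exact absurd (Finset.mem_univ φ) h
      rw [h5, map_sum] at h4
      rw [← h4]
      exact Finset.sum_congr rfl fun φ _ => by rw [map_smul, smul_eq_mul, mul_comm]
    have h6 := Fintype.linearIndependent_iff.1 hli (fun φ => f (Pi.single φ 1)) (by
      funext x
      rw [Finset.sum_apply]
      exact h3 x)
    refine LinearMap.ext fun w => ?_
    have h7 : w = ∑ φ : E →+* X.K, w φ • (Pi.single φ 1 : (E →+* X.K) → X.K) := by
      funext φ
      rw [Finset.sum_apply, Finset.sum_eq_single φ]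
      · rw [Pi.smul_apply, Pi.single_eq_same, smul_eq_mul, mul_one]
      · intro φ' _ h
        rw [Pi.smul_apply, Pi.single_eq_of_ne (Ne.symm h), smul_zero]
      · intro h
        exact absurd (Finset.mem_univ φ) h
    rw [h7, map_sum, LinearMap.zero_apply]
    exact Finset.sum_eq_zero fun φ _ => by rw [map_smul, h6 φ, smul_zero]
  have hm : (Pi.single ψ 1 : (E →+* X.K) → X.K) ∈
      Submodule.span X.K (Set.range fun x : E => (fun φ : E →+* X.K => φ x)) := by
    rw [hsp]
    exact Submodule.mem_top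
  obtain ⟨n, ν, y, hy⟩ := Submodule.mem_span_set'.1 hm
  choose lam hlam using fun k => (y k).2
  have hval : ∀ φ : E →+* X.K, ∑ k, ν k * φ (lam k) = (Pi.single ψ 1 : (E →+* X.K) → X.K) φ := by
    intro φ
    rw [← hy, Finset.sum_apply]
    refine Finset.sum_congr rfl fun k _ => ?_
    rw [Pi.smul_apply, smul_eq_mul, ← hlam k]
  refine ⟨n, ν, lam, ?_, fun φ hφ => ?_⟩
  · rw [hval, Pi.single_eq_same]
  · rw [hval, Pi.single_eq_of_ne hφ]

/-- An element fixed by the Galois group is rational. -/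
theorem fix_rat (k : X.K) (h : ∀ g : X.G, g k = k) : ∃ q : ℚ, X.τ k = q := by
  have h1 : k ∈ (⊥ : IntermediateField ℚ X.K) := by
    rw [IsGalois.mem_bot_iff_fixed]
    exact h
  obtain ⟨q, hq⟩ := IntermediateField.mem_bot.1 h1
  refine ⟨q, ?_⟩
  rw [← hq]
  exact map_ratCast X.τ q ▸ rfl

/-- The sum over the Galois group. -/
theorem sum_gal (k : X.K) : ∃ q : ℚ, ∑ g : X.G, X.τ (g k) = q := by
  obtain ⟨q, hq⟩ := fix_rat (X := X) (∑ g : X.G, g k) (fun h => by
    rw [map_sum]
    exact Fintype.sum_equiv (Equiv.mulLeft h) _ _ fun g => rfl)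
  refine ⟨q, ?_⟩
  rw [← hq, map_sum]

/-- The sum over the labels. -/
theorem sum_lab [NumberField E] (x : E) : ∃ q : ℚ, ∑ φ : E →+* X.K, X.τ (φ x) = q := by
  obtain ⟨q, hq⟩ := fix_rat (X := X) (∑ φ : E →+* X.K, φ x) (fun h => by
    rw [map_sum]
    refine Finset.sum_nbij' (fun φ => gl h φ) (fun φ => gl h⁻¹ φ) (fun _ _ => Finset.mem_univ _)
      (fun _ _ => Finset.mem_univ _) (fun φ _ => ?_) (fun φ _ => ?_) (fun φ _ => rfl)
    · rw [← gl_mul, inv_mul_cancel, gl_one]
    · rw [← gl_mul, mul_inv_cancel, gl_one])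
  refine ⟨q, ?_⟩
  rw [← hq, map_sum]

end S6
end SE
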