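import Pool.Agent.Lib.SE.S6.Mul
import Pool.Agent.Lib.SE.S6.Ded

/-!
# PROJECT SE, part S6 (helper96): balanced products are algebraic

`B` satisfies the Hodge conjecture; `u g i`, `g ∈ G`, `i < m`, are elements of `H_1(B, ℂ)`, pure,
Galois conjugate, `∑_i e g i = 0`. Then `∧_i u g i` is algebraic.
-/

set_option autoImplicit false

open scoped ComplexConjugate
open HC

noncomputable section

namespace SE
namespace S6

variable {X : GF} {B : AV} {m : ℕ}

/-- The product of the factors. -/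
private theorem prod_one {m : ℕ} (w : ℂ) (hw : ‖w‖ = 1) (e : Fin m → ℂ)
    (he : ∀ i, e i = Complex.I ∨ e i = -Complex.I) (hb : ∑ i, e i = 0) :
    ∏ i, ((w.re : ℂ) + w.im * e i) = 1 := by
  have hw0 : w ≠ 0 := fun h => by
    rw [h, norm_zero] at hw
    exact zero_ne_one hw
  have hcw : conj w = w⁻¹ := by
    rw [Complex.inv_def, Complex.normSq_eq_norm_sq, hw]
    simp
  have h1 : ∀ i, ∃ n : ℤ, e i = n * Complex.I ∧ (w.re : ℂ) + w.im * e i = w ^ n := by
    intro i
    rcases he i with h | h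
    · refine ⟨1, by rw [h]; simp, ?_⟩
      rw [h, zpow_one, Complex.re_add_im]
    · refine ⟨-1, by rw [h]; simp, ?_⟩
      rw [h, zpow_neg_one, ← hcw]
      apply Complex.ext
      · simp
      · simp
  choose n hn1 hn2 using h1
  have h2 : ∀ s : Finset (Fin m), ∏ i ∈ s, w ^ n i = w ^ (∑ i ∈ s, n i) := by
    intro s
    classical
    induction s using Finset.induction_on with
    | empty => simp
    | insert i s hi ih => rw [Finset.prod_insert hi, Finset.sum_insert hi, ih, zpow_add₀ hw0]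
  have h3 : ∑ i, n i = 0 := by
    have h4 : ((∑ i, n i : ℤ) : ℂ) * Complex.I = 0 := by
      rw [← hb, Int.cast_sum, Finset.sum_mul]
      exact Finset.sum_congr rfl fun i _ => (hn1 i).symm
    have h5 := (mul_eq_zero.1 h4).resolve_right Complex.I_ne_zero
    exact_mod_cast h5
  rw [Finset.prod_congr rfl fun i _ => hn2 i, h2, h3, zpow_zero]

private theorem pull_unit (w : ℂ) (a : B.V →ₗ[ℝ] ℂ) :
    pull (w • (LinearMap.id : B.V →ₗ[ℂ] B.V)) a = (w.re : ℂ) • a + (w.im : ℂ) • (a ∘ₗ mulI B) := by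
  refine LinearMap.ext fun v => ?_
  show a (w • v) = (w.re : ℂ) * a v + (w.im : ℂ) * a (Complex.I • v)
  have h1 : w • v = w.re • v + w.im • (Complex.I • v) := by
    rw [← Complex.coe_smul, ← Complex.coe_smul, smul_smul, ← add_smul, Complex.re_add_im]
  rw [h1, map_add, map_smul, map_smul, Complex.real_smul, Complex.real_smul]

private theorem pure_type (u : Fin m → H1 B) (e : Fin m → ℂ)
    (he : ∀ i, e i = Complex.I ∨ e i = -Complex.I)
    (ht : ∀ i a, u i (a ∘ₗ mulI B) = e i * u i a) (hb : ∑ i, e i = 0) (w : ℂ) (hw : ‖w‖ = 1) :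
    push (T' := B) (w • (LinearMap.id : B.V →ₗ[ℂ] B.V)) (wdg u) = wdg u := by
  rw [tWdg.2.1]
  ext a
  rw [tWdg.1, tWdg.1]
  have h1 : (Matrix.of fun i j => ((u j) ∘ₗ pull (w • (LinearMap.id : B.V →ₗ[ℂ] B.V))) (a i)) =
      Matrix.of fun i j => ((w.re : ℂ) + w.im * e j) * (Matrix.of fun i j => u j (a i)) i j := by
    ext i j
    simp only [Matrix.of_apply]
    rw [LinearMap.comp_apply, pull_unit, map_add, map_smul, map_smul, ht, smul_eq_mul, smul_eq_mul]
    ring
  rw [h1, Matrix.det_mul_row, prod_one w hw e he hb, one_mul]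

/-- **Balanced products are algebraic.** -/
theorem cmbal (hB : HCj B) (u : X.G → Fin m → H1 B)
    (hr : ∀ i (a : B.V →ₗ[ℝ] ℂ), (∀ v ∈ B.L, ∃ q : ℚ, a v = q) →
      ∃ k : X.K, ∀ g, u g i a = X.τ (g k))
    (e : X.G → Fin m → ℂ) (he : ∀ g i, e g i = Complex.I ∨ e g i = -Complex.I)
    (ht : ∀ g i a, u g i (a ∘ₗ mulI B) = e g i * u g i a) (hb : ∀ g, ∑ i, e g i = 0)
    (g₀ : X.G) : Alg B m (wdg (u g₀)) := by
  classical
  have hH : ∀ lam : X.K, Alg B m (∑ g : X.G, X.τ (g lam) • wdg (u g)) := by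
    intro lam
    refine hB m _ ⟨fun a ha => ?_, fun w hw => ?_⟩
    · choose k hk using fun i j => hr j (a i) (ha i)
      obtain ⟨q, hq⟩ := sum_gal (X := X) (lam * Matrix.det (Matrix.of k))
      refine ⟨q, ?_⟩
      rw [← hq, hlg_sum_apply]
      refine Finset.sum_congr rfl fun g _ => ?_
      rw [AlternatingMap.smul_apply, tWdg.1, map_mul, map_mul, smul_eq_mul]
      congr 1
      have h1 : X.τ (g (Matrix.det (Matrix.of k))) =
          (X.τ.comp (g : X.K →+* X.K)) (Matrix.det (Matrix.of k)) := rfl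
      rw [h1, RingHom.map_det]
      congr 1
      ext i j
      exact hk i j g
    · have h1 : push (T' := B) (w • (LinearMap.id : B.V →ₗ[ℂ] B.V))
          (∑ g : X.G, X.τ (g lam) • wdg (u g)) = ∑ g : X.G, X.τ (g lam) •
            push (T' := B) (w • (LinearMap.id : B.V →ₗ[ℂ] B.V)) (wdg (u g)) := by
        ext a
        show (∑ g : X.G, X.τ (g lam) • wdg (u g)) _ = _
        rw [hlg_sum_apply, hlg_sum_apply]
        rfl
      rw [h1]
      refine Finset.sum_congr rfl fun g _ => ?_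
      rw [pure_type (u g) (e g) (he g) (ht g) (hb g) w hw]
  obtain ⟨n, ν, lam, h1, h2⟩ := ded (X := X) (gl g₀ (RingHom.id X.K))
  have h3 : wdg (u g₀) = ∑ k, X.τ (ν k) • ∑ g : X.G, X.τ (g (lam k)) • wdg (u g) := by
    have h4 : ∑ k, X.τ (ν k) • ∑ g : X.G, X.τ (g (lam k)) • wdg (u g) =
        ∑ g : X.G, X.τ (∑ k, ν k * g (lam k)) • wdg (u g) := by
      rw [Finset.sum_congr rfl fun k _ => Finset.smul_sum, Finset.sum_comm]
      refine Finset.sum_congr rfl fun g _ => ?_
      rw [map_sum, Finset.sum_smul]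
      refine Finset.sum_congr rfl fun k _ => ?_
      rw [map_mul, mul_smul]
    rw [h4, Finset.sum_eq_single g₀]
    · have h5 : ∑ k, ν k * g₀ (lam k) = 1 := h1
      rw [h5, map_one, one_smul]
    · intro g _ hg
      have h5 : ∑ k, ν k * g (lam k) = 0 := h2 (gl g (RingHom.id X.K)) (fun h6 => hg (by
        ext x
        exact RingHom.congr_fun h6 x))
      rw [h5, map_zero, zero_smul]
    · intro h
      exact absurd (Finset.mem_univ g₀) h
  rw [h3]
  have h6 : ∀ s : Finset (Fin n), Alg B m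
      (∑ k ∈ s, X.τ (ν k) • ∑ g : X.G, X.τ (g (lam k)) • wdg (u g)) := by
    intro s
    induction s using Finset.induction_on with
    | empty => exact Alg.zero
    | insert k s hk ih =>
      rw [Finset.sum_insert hk]
      exact Alg.add (Alg.smul _ (hH _)) ih
  exact h6 _

end S6
end SE
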