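import Pool.Agent.Lib.SE.S6.BlkR
import Pool.Agent.Lib.SE.S6.CMbal
import Pool.Agent.Lib.SE.W.Spec
import Pool.Agent.Lib.HC.L.E.Cm

/-!
# PROJECT SE, part S6 (helper96): `DA` for abelian varieties of CM type with pure coordinates
-/

set_option autoImplicit false

open HC

noncomputable section

namespace SE
namespace S6

variable {X : GF}

/-- The conjugation commutes with the Galois group on labels. -/
theorem gl_comm (t : Tp X) (g : X.G) (φ : t.E →+* X.K) :
    gl g (gl X.c φ) = gl X.c (gl g φ) := by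
  ext x
  rw [gl_apply, gl_apply, ← t.hinv, gl_apply, gl_apply, ← gl_apply g φ, t.hinv, gl_apply]

end S6

/-- **Dcm**. -/
theorem tDcm : S_Dcm := by
  intro hHC Q hQ X t hT hP
  obtain ⟨e, he1, he2, he3, he4, he5⟩ := S6.blk_type t.B hP
  refine ⟨{ C := t.T, cm := hT, BC := t.B, pure := hP, type := fun _ => rfl, alg := ?_ }⟩
  intro φ P i₁ i₂ h1 h2
  have hPc : IsCM P.T := isCM_prod hT hT ⟨P.ψ, fun v hv =>
    ⟨1, one_ne_zero, by rw [one_smul]; exact ((P.lat v).1 hv).1,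
      by rw [one_smul]; exact ((P.lat v).1 hv).2⟩⟩
  have hL1 : ∀ v ∈ t.T.L, i₁ v ∈ P.T.L := fun v hv => (P.lat _).2 (by
    rw [h1]
    exact ⟨hv, t.T.L.zero_mem⟩)
  have hL2 : ∀ v ∈ t.T.L, i₂ v ∈ P.T.L := fun v hv => (P.lat _).2 (by
    rw [h2]
    exact ⟨t.T.L.zero_mem, hv⟩)
  have hrat : ∀ (j : t.T.V →ₗ[ℂ] P.T.V), (∀ v ∈ t.T.L, j v ∈ P.T.L) → ∀ (ψ : t.E →+* X.K)
      (i : Fin t.r) (a : P.T.V →ₗ[ℝ] ℂ), (∀ v ∈ P.T.L, ∃ q : ℚ, a v = q) →
      ∃ k : X.K, ∀ g : X.G, S6.mp j (t.B.b.coord (gl g ψ, i)) a = X.τ (g k) :=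
    fun j hj ψ i a ha => S6.blk_rat t.B ψ i (a ∘ₗ j.restrictScalars ℝ) fun v hv => ha _ (hj v hv)
  have htyp : ∀ (j : t.T.V →ₗ[ℂ] P.T.V) (ψ : t.E →+* X.K) (i : Fin t.r) (a : P.T.V →ₗ[ℝ] ℂ),
      S6.mp j (t.B.b.coord (ψ, i)) (a ∘ₗ mulI P.T) = e ψ i * S6.mp j (t.B.b.coord (ψ, i)) a := by
    intro j ψ i a
    have h3 := he4 ψ i (a ∘ₗ j.restrictScalars ℝ)
    have h4 : (a ∘ₗ mulI P.T) ∘ₗ j.restrictScalars ℝ =
        (a ∘ₗ j.restrictScalars ℝ) ∘ₗ mulI t.T := by
      refine LinearMap.ext fun v => ?_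
      show a (Complex.I • j v) = a (j (Complex.I • v))
      rw [j.map_smul]
    rw [S6.mp_apply, S6.mp_apply, h4]
    exact h3
  have hodd : ∀ ψ i, e (gl X.c ψ) i = -e ψ i := by
    intro ψ i
    have h3 := he3 ψ i
    have h4 : e ψ i * e ψ i = -1 := by
      rcases he1 ψ i with h | h
      · rw [h, Complex.I_mul_I]
      · rw [h, neg_mul_neg, Complex.I_mul_I]
    have h5 : e ψ i ≠ 0 := fun h => by
      rw [h, mul_zero] at h4
      exact (by norm_num : (0 : ℂ) ≠ -1) h4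
    apply mul_right_cancel₀ h5
    rw [h3, neg_mul, h4, neg_neg]
  have h3 := S6.cmbal (X := X) (B := P.T) (m := t.r + t.r) (fun m c hc => hHC P.T hPc m c hc)
    (fun g => Fin.append (fun i => S6.mp i₁ (t.B.b.coord (gl g φ, i)))
      (fun i => S6.mp i₂ (t.B.b.coord (gl g (gl X.c φ), i))))
    (fun k a ha => by
      refine Fin.addCases (fun i => ?_) (fun i => ?_) k
      · obtain ⟨x, hx⟩ := hrat i₁ hL1 φ i a ha
        refine ⟨x, fun g => ?_⟩
        rw [Fin.append_left]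
        exact hx g
      · obtain ⟨x, hx⟩ := hrat i₂ hL2 (gl X.c φ) i a ha
        refine ⟨x, fun g => ?_⟩
        rw [Fin.append_right]
        exact hx g)
    (fun g => Fin.append (fun i => e (gl g φ) i) (fun i => e (gl g (gl X.c φ)) i))
    (fun g k => by
      refine Fin.addCases (fun i => ?_) (fun i => ?_) k
      · rw [Fin.append_left]
        exact he1 _ _
      · rw [Fin.append_right]
        exact he1 _ _)
    (fun g k a => by
      refine Fin.addCases (fun i => ?_) (fun i => ?_) k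
      · rw [Fin.append_left, Fin.append_left]
        exact htyp _ _ _ _
      · rw [Fin.append_right, Fin.append_right]
        exact htyp _ _ _ _)
    (fun g => by
      rw [Fin.sum_univ_add]
      simp only [Fin.append_left, Fin.append_right]
      rw [← Finset.sum_add_distrib]
      refine Finset.sum_eq_zero fun i _ => ?_
      rw [S6.gl_comm, hodd]
      exact add_neg_cancel _)
    1
  have h4 := hQ.base h3
  rw [S6.gl_one, S6.gl_one, ← tWdg.2.2.1] at h4
  rw [tWdg.2.1, tWdg.2.1]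
  exact h4

end SE
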