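import Pool.Agent.Lib.SE.S6.Mul

/-!
# PROJECT SE, part S6 (helper96): `QA` of a product of linear functions
-/

set_option autoImplicit false

open HC

noncomputable section

namespace SE
namespace S6

variable {Q : (T : AV) → (m : ℕ) → Hlg T m → Prop}

open Classical in
theorem alt_prod {T : AV} {ι : Type} [Fintype ι] {m : ℕ} (e : ι ≃ Fin m) (x : ι → H1 T) :
    (MultilinearMap.alternatization (prodML x)).domDomCongr e = wdg fun j => x (e.symm j) := by
  ext a
  rw [tWdg.1, AlternatingMap.domDomCongr_apply, MultilinearMap.alternatization_apply,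
    ← Matrix.det_submatrix_equiv_self e, Matrix.det_apply]
  refine Finset.sum_congr rfl fun π _ => ?_
  congr 1
  rw [MultilinearMap.domDomCongr_apply]
  show ∏ i, x i (a (e (π i))) = _
  refine Finset.prod_congr rfl fun i _ => ?_
  rw [Matrix.submatrix_apply, Matrix.of_apply, Equiv.symm_apply_apply]

/-- From `AM` to `QA`. -/
theorem AM.qa (hQ : Cl Q) {T : AV} {ι : Type} [Fintype ι] (x : ι → H1 T)
    (h : AM Q T (∑ i, {x i})) : QA Q T ι (prodML x) := by
  intro m e
  rw [alt_prod]
  refine h.all hQ _ ?_
  rw [sum_sing]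
  have h1 := Multiset.map_univ_val_equiv e.symm
  conv_rhs => rw [← h1, Multiset.map_map]
  rfl

end S6
end SE
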