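import Pool.Agent.Lib.SE.S6.BlkR

/-!
# PROJECT SE, part S6 (helper96): the divisors which connect two copies of a block
-/

set_option autoImplicit false

open scoped ComplexConjugate
open HC

noncomputable section

namespace SE
namespace S6

variable {X : GF} {C : AV} {E : Type} [Field E] [NumberField E] {r : ℕ}

/-- The divisor `∑_ψ z'(c ψ, i) ∧ z''(ψ, i)`. -/
theorem isDiv_pair (B : Blk X C E r) (hB : B.Pure) (inv : E ≃+* E)
    (hinv : ∀ (φ : E →+* X.K) (x : E), φ (inv x) = X.c (φ x)) (W : AV)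
    (j1 j2 : W.V →ₗ[ℂ] C.V) (h1 : ∀ v ∈ W.L, j1 v ∈ C.L) (h2 : ∀ v ∈ W.L, j2 v ∈ C.L)
    (i : Fin r) {N : ℕ} (en : (E →+* X.K) ≃ Fin N) :
    IsDiv W (fun j => B.b (gl X.c (en.symm j), i) ∘ₗ j1.restrictScalars ℝ)
      (fun j => B.b (en.symm j, i) ∘ₗ j2.restrictScalars ℝ) := by
  have hsum : ∀ u v : W.V, (∑ j, ((B.b (gl X.c (en.symm j), i) ∘ₗ j1.restrictScalars ℝ) u *
      (B.b (en.symm j, i) ∘ₗ j2.restrictScalars ℝ) v -
      (B.b (gl X.c (en.symm j), i) ∘ₗ j1.restrictScalars ℝ) v *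
      (B.b (en.symm j, i) ∘ₗ j2.restrictScalars ℝ) u)) =
      ∑ ψ : E →+* X.K, (B.b (gl X.c ψ, i) (j1 u) * B.b (ψ, i) (j2 v) -
        B.b (gl X.c ψ, i) (j1 v) * B.b (ψ, i) (j2 u)) := by
    intro u v
    exact Fintype.sum_equiv en.symm _ _ fun j => rfl
  refine ⟨fun u hu v hv => ?_, fun u v => ?_⟩
  · obtain ⟨y1, hy1⟩ := B.lat _ (h1 u hu)
    obtain ⟨y2, hy2⟩ := B.lat _ (h2 v hv)
    obtain ⟨y3, hy3⟩ := B.lat _ (h1 v hv)
    obtain ⟨y4, hy4⟩ := B.lat _ (h2 u hu)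
    obtain ⟨q, hq⟩ := sum_lab (X := X) (inv (y1 i) * y2 i - inv (y3 i) * y4 i)
    refine ⟨q, ?_⟩
    have h := hsum u v
    rw [← hq]
    refine h.trans (Finset.sum_congr rfl fun ψ _ => ?_)
    rw [hy1, hy2, hy3, hy4, map_sub, map_mul, map_mul, hinv, hinv, map_sub, map_mul, map_mul]
    rfl
  · obtain ⟨e, he1, he2, he3, -, -⟩ := blk_type B hB
    refine (hsum _ _).trans (Eq.trans ?_ (hsum u v).symm)
    refine Finset.sum_congr rfl fun ψ _ => ?_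
    rw [j1.map_smul, j2.map_smul, j1.map_smul, j2.map_smul, he2, he2, he2, he2]
    have h3 := he3 ψ i
    linear_combination (B.b (gl X.c ψ, i) (j1 u) * B.b (ψ, i) (j2 v) -
        B.b (gl X.c ψ, i) (j1 v) * B.b (ψ, i) (j2 u)) * h3

end S6
end SE
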