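import Pool.Agent.Lib.SE.S6.PrCM
import Pool.Agent.Lib.SE.S6.CMbal

/-!
# PROJECT SE, part S6 (helper96): the class of a point, sums of multisets
-/

set_option autoImplicit false

open HC

noncomputable section

namespace SE
namespace S6

/-- The class of a point. -/
theorem alg_pt (h : HodgeCM) (T : AV) (x : Fin 0 → H1 T) : Alg T 0 (wdg x) := by
  obtain ⟨C⟩ := exPdF (fun p : Empty => (nomatch p : AV))
  have hC : IsCM C.T := isCM_pdf (fun p => nomatch p) C
  have h1 : Alg C.T 0 (wdg (fun i : Fin 0 => (nomatch i : H1 C.T))) := by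
    refine h C.T hC 0 _ ⟨fun a _ => ⟨1, ?_⟩, fun u _ => ?_⟩
    · rw [tWdg.1, Matrix.det_isEmpty, Rat.cast_one]
    · rw [tWdg.2.1]
      congr 1
      funext i
      exact nomatch i
  have h2 := Alg.push (T' := T) (0 : C.T.V →ₗ[ℂ] T.V) (fun v _ => T.L.zero_mem) h1
  rw [tWdg.2.1] at h2
  have h3 : (fun j : Fin 0 => (nomatch j : H1 C.T) ∘ₗ pull (0 : C.T.V →ₗ[ℂ] T.V)) = x := by
    funext i
    exact nomatch i
  rw [← h3]
  exact h2

variable {Q : (T : AV) → (m : ℕ) → Hlg T m → Prop}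

theorem AM.zero (hQ : Cl Q) (h : HodgeCM) (T : AV) : AM Q T 0 :=
  ⟨0, (fun i : Fin 0 => (nomatch i : H1 T)), by simp, hQ.base (alg_pt h T _)⟩

/-- Finite sums. -/
theorem AM.sum (hQ : Cl Q) (h : HodgeCM) {T : AV} {ι : Type} (F : Finset ι)
    (s : ι → Multiset (H1 T)) (hs : ∀ i ∈ F, AM Q T (s i)) : AM Q T (∑ i ∈ F, s i) := by
  classical
  induction F using Finset.induction_on with
  | empty => exact AM.zero hQ h T
  | insert i F hi ih =>
    rw [Finset.sum_insert hi]
    exact AM.add hQ (hs i (Finset.mem_insert_self i F))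
      (ih fun j hj => hs j (Finset.mem_insert_of_mem hj))

/-- A product of two. -/
theorem AM.mk_pont {T : AV} {m n : ℕ} (x : Fin m → H1 T) (y : Fin n → H1 T)
    (h : Q T (m + n) (HC.pont (wdg x) (wdg y))) : AM Q T (∑ i, {x i} + ∑ i, {y i}) := by
  rw [tWdg.2.2.1] at h
  refine ⟨m + n, Fin.append x y, ?_, h⟩
  rw [sum_sing, sum_sing, Fin.univ_val_map, Fin.univ_val_map, Fin.univ_val_map,
    List.ofFn_fin_append]
  rfl

theorem map_sum_sing {T T' : AV} {ι : Type} (F : Finset ι) (φ : T.V →ₗ[ℂ] T'.V) (x : ι → H1 T) :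
    (∑ i ∈ F, ({x i} : Multiset (H1 T))).map (mp φ) = ∑ i ∈ F, {mp φ (x i)} := by
  classical
  induction F using Finset.induction_on with
  | empty => simp
  | insert i F hi ih =>
    rw [Finset.sum_insert hi, Finset.sum_insert hi, Multiset.map_add, ih, Multiset.map_singleton]

end S6
end SE
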