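import Pool.Agent.Lib.SE.S6.PrCM
import Pool.Agent.Lib.HC.L.L0

/-!
# PROJECT SE, part S6 (helper96): the product of `Y` and two copies of the product of the `C p`
-/

set_option autoImplicit false

open HC

noncomputable section

namespace SE
namespace S6

/-- The product of `Y` and two copies of the product of the `C p`, with the inclusions `i` and the
projections `j`. -/
structure W3 {σ : Type} (Y : AV) (C : σ → AV) where
  W : AV
  iY : Y.V →ₗ[ℂ] W.V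
  jY : W.V →ₗ[ℂ] Y.V
  i1 : ∀ p, (C p).V →ₗ[ℂ] W.V
  j1 : ∀ p, W.V →ₗ[ℂ] (C p).V
  i2 : ∀ p, (C p).V →ₗ[ℂ] W.V
  j2 : ∀ p, W.V →ₗ[ℂ] (C p).V
  iYL : ∀ v ∈ Y.L, iY v ∈ W.L
  jYL : ∀ v ∈ W.L, jY v ∈ Y.L
  i1L : ∀ p, ∀ v ∈ (C p).L, i1 p v ∈ W.L
  j1L : ∀ p, ∀ v ∈ W.L, j1 p v ∈ (C p).L
  i2L : ∀ p, ∀ v ∈ (C p).L, i2 p v ∈ W.L
  j2L : ∀ p, ∀ v ∈ W.L, j2 p v ∈ (C p).L
  jYY : jY ∘ₗ iY = LinearMap.id
  j11 : ∀ p, j1 p ∘ₗ i1 p = LinearMap.id
  j22 : ∀ p, j2 p ∘ₗ i2 p = LinearMap.id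
  n11 : ∀ p q, p ≠ q → j1 p ∘ₗ i1 q = 0
  n22 : ∀ p q, p ≠ q → j2 p ∘ₗ i2 q = 0
  n12 : ∀ p q, j1 p ∘ₗ i2 q = 0
  n21 : ∀ p q, j2 p ∘ₗ i1 q = 0
  n1Y : ∀ p, j1 p ∘ₗ iY = 0
  n2Y : ∀ p, j2 p ∘ₗ iY = 0

variable {A B : AV} (P : Pd A B)

private def fs : P.T.V →ₗ[ℂ] A.V := LinearMap.fst ℂ A.V B.V ∘ₗ P.ψ.toLinearMap

private def sn : P.T.V →ₗ[ℂ] B.V := LinearMap.snd ℂ A.V B.V ∘ₗ P.ψ.toLinearMap

private def il : A.V →ₗ[ℂ] P.T.V := P.ψ.symm.toLinearMap ∘ₗ LinearMap.inl ℂ A.V B.V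

private def ir : B.V →ₗ[ℂ] P.T.V := P.ψ.symm.toLinearMap ∘ₗ LinearMap.inr ℂ A.V B.V

private theorem fsL : ∀ v ∈ P.T.L, fs P v ∈ A.L := fun v hv => ((P.lat v).1 hv).1

private theorem snL : ∀ v ∈ P.T.L, sn P v ∈ B.L := fun v hv => ((P.lat v).1 hv).2

private theorem ilL : ∀ v ∈ A.L, il P v ∈ P.T.L := fun v hv => by
  refine (P.lat _).2 ?_
  show (P.ψ (P.ψ.symm (v, 0))).1 ∈ A.L ∧ (P.ψ (P.ψ.symm (v, 0))).2 ∈ B.L
  rw [LinearEquiv.apply_symm_apply]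
  exact ⟨hv, B.L.zero_mem⟩

private theorem irL : ∀ v ∈ B.L, ir P v ∈ P.T.L := fun v hv => by
  refine (P.lat _).2 ?_
  show (P.ψ (P.ψ.symm (0, v))).1 ∈ A.L ∧ (P.ψ (P.ψ.symm (0, v))).2 ∈ B.L
  rw [LinearEquiv.apply_symm_apply]
  exact ⟨A.L.zero_mem, hv⟩

private theorem fs_il : fs P ∘ₗ il P = LinearMap.id := LinearMap.ext fun v => by
  show (P.ψ (P.ψ.symm (v, 0))).1 = v
  rw [LinearEquiv.apply_symm_apply]

private theorem sn_ir : sn P ∘ₗ ir P = LinearMap.id := LinearMap.ext fun v => by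
  show (P.ψ (P.ψ.symm (0, v))).2 = v
  rw [LinearEquiv.apply_symm_apply]

private theorem fs_ir : fs P ∘ₗ ir P = 0 := LinearMap.ext fun v => by
  show (P.ψ (P.ψ.symm (0, v))).1 = 0
  rw [LinearEquiv.apply_symm_apply]

private theorem sn_il : sn P ∘ₗ il P = 0 := LinearMap.ext fun v => by
  show (P.ψ (P.ψ.symm (v, 0))).2 = 0
  rw [LinearEquiv.apply_symm_apply]

/-- They exist. -/
theorem exW3 {σ : Type} [Fintype σ] (Y : AV) (C : σ → AV) : Nonempty (W3 Y C) := by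
  obtain ⟨D⟩ := exPdF C
  obtain ⟨P⟩ := pL0 D.T D.T
  obtain ⟨R⟩ := pL0 Y P.T
  have h1 : ∀ v, sn R (ir R v) = v := fun v => LinearMap.congr_fun (sn_ir R) v
  have h2 : ∀ v, fs P (il P v) = v := fun v => LinearMap.congr_fun (fs_il P) v
  have h3 : ∀ v, sn P (ir P v) = v := fun v => LinearMap.congr_fun (sn_ir P) v
  have h4 : ∀ v, fs P (ir P v) = 0 := fun v => LinearMap.congr_fun (fs_ir P) v
  have h5 : ∀ v, sn P (il P v) = 0 := fun v => LinearMap.congr_fun (sn_il P) v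
  have h6 : ∀ v, sn R (il R v) = 0 := fun v => LinearMap.congr_fun (sn_il R) v
  have h7 : ∀ p v, D.pr p (D.inc p v) = v := fun p v => LinearMap.congr_fun (D.pr_inc p) v
  have h8 : ∀ p q, p ≠ q → ∀ v, D.pr p (D.inc q v) = 0 := fun p q h v =>
    LinearMap.congr_fun (D.pr_inc_ne h) v
  exact ⟨{
    W := R.T
    iY := il R
    jY := fs R
    i1 := fun p => ir R ∘ₗ il P ∘ₗ D.inc p
    j1 := fun p => D.pr p ∘ₗ fs P ∘ₗ sn R
    i2 := fun p => ir R ∘ₗ ir P ∘ₗ D.inc p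
    j2 := fun p => D.pr p ∘ₗ sn P ∘ₗ sn R
    iYL := ilL R
    jYL := fsL R
    i1L := fun p v hv => irL R _ (ilL P _ (D.inc_lat p v hv))
    j1L := fun p v hv => D.pr_lat p _ (fsL P _ (snL R v hv))
    i2L := fun p v hv => irL R _ (irL P _ (D.inc_lat p v hv))
    j2L := fun p v hv => D.pr_lat p _ (snL P _ (snL R v hv))
    jYY := fs_il R
    j11 := fun p => LinearMap.ext fun v => by
      show D.pr p (fs P (sn R (ir R (il P (D.inc p v))))) = v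
      rw [h1, h2, h7]
    j22 := fun p => LinearMap.ext fun v => by
      show D.pr p (sn P (sn R (ir R (ir P (D.inc p v))))) = v
      rw [h1, h3, h7]
    n11 := fun p q h => LinearMap.ext fun v => by
      show D.pr p (fs P (sn R (ir R (il P (D.inc q v))))) = 0
      rw [h1, h2, h8 p q h]
    n22 := fun p q h => LinearMap.ext fun v => by
      show D.pr p (sn P (sn R (ir R (ir P (D.inc q v))))) = 0
      rw [h1, h3, h8 p q h]
    n12 := fun p q => LinearMap.ext fun v => by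
      show D.pr p (fs P (sn R (ir R (ir P (D.inc q v))))) = 0
      rw [h1, h4, map_zero]
    n21 := fun p q => LinearMap.ext fun v => by
      show D.pr p (sn P (sn R (ir R (il P (D.inc q v))))) = 0
      rw [h1, h5, map_zero]
    n1Y := fun p => LinearMap.ext fun v => by
      show D.pr p (fs P (sn R (il R v))) = 0
      rw [h6, map_zero, map_zero]
    n2Y := fun p => LinearMap.ext fun v => by
      show D.pr p (sn P (sn R (il R v))) = 0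
      rw [h6, map_zero, map_zero] }⟩

/-- The two inclusions of `Pd` and a homomorphism out of it. -/
theorem pd_hom (P : Pd A B) (W : AV) (f : A.V →ₗ[ℂ] W.V) (g : B.V →ₗ[ℂ] W.V)
    (hf : ∀ v ∈ A.L, f v ∈ W.L) (hg : ∀ v ∈ B.L, g v ∈ W.L) :
    ∃ (i₁ : A.V →ₗ[ℂ] P.T.V) (i₂ : B.V →ₗ[ℂ] P.T.V) (h : P.T.V →ₗ[ℂ] W.V),
      (∀ v, P.ψ (i₁ v) = (v, 0)) ∧ (∀ v, P.ψ (i₂ v) = (0, v)) ∧ (∀ v ∈ P.T.L, h v ∈ W.L) ∧
      h ∘ₗ i₁ = f ∧ h ∘ₗ i₂ = g := by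
  refine ⟨il P, ir P, f ∘ₗ fs P + g ∘ₗ sn P, fun v => ?_, fun v => ?_, fun v hv => ?_, ?_, ?_⟩
  · show P.ψ (P.ψ.symm (v, 0)) = (v, 0)
    rw [LinearEquiv.apply_symm_apply]
  · show P.ψ (P.ψ.symm (0, v)) = (0, v)
    rw [LinearEquiv.apply_symm_apply]
  · exact W.L.add_mem (hf _ (fsL P v hv)) (hg _ (snL P v hv))
  · refine LinearMap.ext fun v => ?_
    show f (fs P (il P v)) + g (sn P (il P v)) = f v
    have h1 : fs P (il P v) = v := LinearMap.congr_fun (fs_il P) v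
    have h2 : sn P (il P v) = 0 := LinearMap.congr_fun (sn_il P) v
    rw [h1, h2, map_zero, add_zero]
  · refine LinearMap.ext fun v => ?_
    show f (fs P (ir P v)) + g (sn P (ir P v)) = g v
    have h1 : fs P (ir P v) = 0 := LinearMap.congr_fun (fs_ir P) v
    have h2 : sn P (ir P v) = v := LinearMap.congr_fun (sn_ir P) v
    rw [h1, h2, map_zero, zero_add]

end S6
end SE
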