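import Pool.Agent.Lib.SE.S6.Core
import Pool.Agent.Lib.SE.S6.W3
import Pool.Agent.Lib.SE.S6.DivP
import Pool.Agent.Lib.SE.S6.Pt
import Pool.Agent.Lib.SE.S6.Alt

/-!
# PROJECT SE, part S6 (helper96): TRANSFER

Balanced products of determinants are in `Q`, if the classes `det_φ(T) × det_(conj φ)(C)` are.
-/

set_option autoImplicit false

open HC

noncomputable section

namespace SE
namespace S6

variable {Q : (T : AV) → (m : ℕ) → Hlg T m → Prop} {X : GF}

/-- The determinant class of `T_p`, moved to a product. -/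
theorem tr_one (hQ : Cl Q) (t : Tp X) (D : DA Q t) (φ : t.E →+* X.K) (W : AV)
    (f : t.T.V →ₗ[ℂ] W.V) (g : D.C.V →ₗ[ℂ] W.V) (hf : ∀ v ∈ t.T.L, f v ∈ W.L)
    (hg : ∀ v ∈ D.C.L, g v ∈ W.L) :
    AM Q W (∑ i, {mp f (t.B.b.coord (φ, i))} + ∑ i, {mp g (D.BC.b.coord (gl X.c φ, i))}) := by
  obtain ⟨P⟩ := pL0 t.T D.C
  obtain ⟨i₁, i₂, h, h1, h2, h3, h4, h5⟩ := pd_hom P W f g hf hg
  have h6 := D.alg φ P i₁ i₂ h1 h2
  rw [tWdg.2.1, tWdg.2.1] at h6
  have h7 := (AM.mk_pont _ _ h6).push hQ h h3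
  rw [Multiset.map_add, map_sum_sing, map_sum_sing] at h7
  have h8 : ∀ x : H1 t.T, mp h (x ∘ₗ pull i₁) = mp f x := fun x => by
    rw [← h4]
    rfl
  have h9 : ∀ x : H1 D.C, mp h (x ∘ₗ pull i₂) = mp g x := fun x => by
    rw [← h5]
    rfl
  simp only [h8, h9] at h7
  exact h7

/-- The complementary factor is algebraic. -/
theorem tr_two (hQ : Cl Q) (hHC : HodgeCM) {σ : Type} [Fintype σ] (t : σ → Tp X)
    (D : ∀ p, DA Q (t p)) (φ : ∀ p, (t p).E →+* X.K)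
    (bal : ∀ g : X.G, ∑ p, (t p).B.δ (gl g (φ p)) = 0) (W : AV)
    (j : ∀ p, (D p).C.V →ₗ[ℂ] W.V) (hj : ∀ p, ∀ v ∈ (D p).C.L, j p v ∈ W.L) :
    AM Q W (∑ q : (p : σ) × Fin (t p).r, {mp (j q.1) ((D q.1).BC.b.coord (φ q.1, q.2))}) := by
  classical
  obtain ⟨P⟩ := exPdF fun p => (D p).C
  have hP : HCj P.T := fun m c hc => hHC P.T (isCM_pdf (fun p => (D p).cm) P) m c hc
  choose e he1 he2 he3 he4 he5 using fun p => blk_type (D p).BC (D p).pure
  obtain ⟨en⟩ : Nonempty (((p : σ) × Fin (t p).r) ≃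
      Fin (Fintype.card ((p : σ) × Fin (t p).r))) := ⟨Fintype.equivFin _⟩
  have h1 := cmbal (X := X) hP
    (fun g k => mp (P.inc (en.symm k).1)
      ((D (en.symm k).1).BC.b.coord (gl g (φ (en.symm k).1), (en.symm k).2)))
    (fun k a ha => by
      obtain ⟨x, hx⟩ := blk_rat (D (en.symm k).1).BC (φ (en.symm k).1) (en.symm k).2
        (a ∘ₗ (P.inc (en.symm k).1).restrictScalars ℝ) (fun v hv =>
          ha _ (P.inc_lat (en.symm k).1 v hv))
      exact ⟨x, fun g => hx g⟩)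
    (fun g k => e (en.symm k).1 (gl g (φ (en.symm k).1)) (en.symm k).2)
    (fun g k => he1 _ _ _)
    (fun g k a => by
      have h2 := he4 (en.symm k).1 (gl g (φ (en.symm k).1)) (en.symm k).2
        (a ∘ₗ (P.inc (en.symm k).1).restrictScalars ℝ)
      have h3 : (a ∘ₗ mulI P.T) ∘ₗ (P.inc (en.symm k).1).restrictScalars ℝ =
          (a ∘ₗ (P.inc (en.symm k).1).restrictScalars ℝ) ∘ₗ mulI (D (en.symm k).1).C := by
        refine LinearMap.ext fun v => ?_
        show a (Complex.I • P.inc (en.symm k).1 v) = a (P.inc (en.symm k).1 (Complex.I • v))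
        rw [(P.inc (en.symm k).1).map_smul]
      rw [mp_apply, mp_apply, h3]
      exact h2)
    (fun g => by
      have h2 : ∑ k, e (en.symm k).1 (gl g (φ (en.symm k).1)) (en.symm k).2 =
          ∑ q : (p : σ) × Fin (t p).r, e q.1 (gl g (φ q.1)) q.2 :=
        Fintype.sum_equiv en.symm _ _ fun k => rfl
      rw [h2, Fintype.sum_sigma, ← bal g]
      exact Finset.sum_congr rfl fun p _ =>
        (he5 p (gl g (φ p))).symm.trans ((D p).type _).symm)
    1
  have h2 := AM.mk _ (hQ.base h1)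
  have h3 : (∑ k, ({mp (P.inc (en.symm k).1) ((D (en.symm k).1).BC.b.coord
      (gl (1 : X.G) (φ (en.symm k).1), (en.symm k).2))} : Multiset (H1 P.T))) =
      ∑ q : (p : σ) × Fin (t p).r, {mp (P.inc q.1) ((D q.1).BC.b.coord (φ q.1, q.2))} := by
    refine Fintype.sum_equiv en.symm _ _ fun k => ?_
    rw [gl_one]
  have h4 := (h2.sub h3).push hQ (∑ p, j p ∘ₗ P.pr p) (fun v hv => by
    rw [LinearMap.sum_apply]
    exact Submodule.sum_mem _ fun p _ => hj p _ (P.pr_lat p v hv))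
  rw [map_sum_sing] at h4
  refine h4.sub (Finset.sum_congr rfl fun q _ => ?_)
  rw [mp_mp]
  congr 2
  refine LinearMap.ext fun v => ?_
  rw [LinearMap.comp_apply, LinearMap.sum_apply, Finset.sum_eq_single q.1]
  · show j q.1 (P.pr q.1 (P.inc q.1 v)) = j q.1 v
    have h5 := LinearMap.congr_fun (P.pr_inc q.1) v
    rw [LinearMap.comp_apply] at h5
    rw [h5]
    rfl
  · intro p _ hp
    show j p (P.pr p (P.inc q.1 v)) = 0
    have h5 := LinearMap.congr_fun (P.pr_inc_ne hp) v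
    rw [LinearMap.comp_apply] at h5
    rw [h5]
    exact map_zero _
  · intro h
    exact absurd (Finset.mem_univ _) h

/-- **TRANSFER**, in terms of multisets. -/
theorem tr_am (hQ : Cl Q) (hHC : HodgeCM) {σ : Type} [Fintype σ] (t : σ → Tp X)
    (D : ∀ p, DA Q (t p)) (φ : ∀ p, (t p).E →+* X.K)
    (bal : ∀ g : X.G, ∑ p, (t p).B.δ (gl g (φ p)) = 0) (Y : AV)
    (κ : ∀ p, (t p).T.V →ₗ[ℂ] Y.V) (hκ : ∀ p, ∀ v ∈ (t p).T.L, κ p v ∈ Y.L) :
    AM Q Y (∑ q : (p : σ) × Fin (t p).r, {mp (κ q.1) ((t q.1).B.b.coord (φ q.1, q.2))}) := by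
  classical
  obtain ⟨W⟩ := exW3 Y fun p => (D p).C
  have h1 : AM Q W.W (∑ p, (∑ i, {mp (W.iY ∘ₗ κ p) ((t p).B.b.coord (φ p, i))} +
      ∑ i, {mp (W.i1 p) ((D p).BC.b.coord (gl X.c (φ p), i))})) :=
    AM.sum hQ hHC _ _ fun p _ => tr_one hQ (t p) (D p) (φ p) W.W (W.iY ∘ₗ κ p) (W.i1 p)
      (fun v hv => W.iYL _ (hκ p v hv)) (W.i1L p)
  have h2 := tr_two hQ hHC t D φ bal W.W W.i2 W.i2L
  have h3 := AM.add hQ h1 h2
  have h4 : (∑ p, (∑ i, ({mp (W.iY ∘ₗ κ p) ((t p).B.b.coord (φ p, i))} : Multiset (H1 W.W)) +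
      ∑ i, {mp (W.i1 p) ((D p).BC.b.coord (gl X.c (φ p), i))})) +
      ∑ q : (p : σ) × Fin (t p).r, {mp (W.i2 q.1) ((D q.1).BC.b.coord (φ q.1, q.2))} =
      (∑ q : (p : σ) × Fin (t p).r, ({mp (W.i1 q.1) ((D q.1).BC.b.coord (gl X.c (φ q.1), q.2))} +
        {mp (W.i2 q.1) ((D q.1).BC.b.coord (φ q.1, q.2))})) +
      ∑ q : (p : σ) × Fin (t p).r, {mp (W.iY ∘ₗ κ q.1) ((t q.1).B.b.coord (φ q.1, q.2))} := by
    rw [Finset.sum_add_distrib, Finset.sum_add_distrib, Fintype.sum_sigma, Fintype.sum_sigma,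
      Fintype.sum_sigma]
    abel
  have en : ∀ p, ((t p).E →+* X.K) ≃ Fin (Fintype.card ((t p).E →+* X.K)) := fun p =>
    Fintype.equivFin _
  have h5 := AM.cap_all hQ Finset.univ
    (fun q : (p : σ) × Fin (t p).r => mp (W.i1 q.1) ((D q.1).BC.b.coord (gl X.c (φ q.1), q.2)))
    (fun q => mp (W.i2 q.1) ((D q.1).BC.b.coord (φ q.1, q.2)))
    (∑ q : (p : σ) × Fin (t p).r, {mp (W.iY ∘ₗ κ q.1) ((t q.1).B.b.coord (φ q.1, q.2))})
    (fun q => Fintype.card ((t q.1).E →+* X.K))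
    (fun q k => (D q.1).BC.b (gl X.c ((en q.1).symm k), q.2) ∘ₗ (W.j1 q.1).restrictScalars ℝ)
    (fun q k => (D q.1).BC.b ((en q.1).symm k, q.2) ∘ₗ (W.j2 q.1).restrictScalars ℝ)
    (fun q => isDiv_pair (D q.1).BC (D q.1).pure (t q.1).inv (t q.1).hinv W.W (W.j1 q.1)
      (W.j2 q.1) (W.j1L q.1) (W.j2L q.1) q.2 (en q.1))
    (by
      rintro ⟨p, i⟩ ⟨p', i'⟩ hne k
      have e0 : ∀ (x : H1 (D p').C) (a : (D p).C.V →ₗ[ℝ] ℂ) (f : (D p').C.V →ₗ[ℂ] W.W.V)
          (g : W.W.V →ₗ[ℂ] (D p).C.V), g ∘ₗ f = 0 → mp f x (a ∘ₗ g.restrictScalars ℝ) = 0 := by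
        intro x a f g hfg
        rw [mp_apply]
        have h6 : (a ∘ₗ g.restrictScalars ℝ) ∘ₗ f.restrictScalars ℝ = 0 := by
          refine LinearMap.ext fun v => ?_
          show a ((g ∘ₗ f) v) = 0
          rw [hfg]
          exact map_zero a
        rw [h6, map_zero]
      by_cases hp : p = p'
      · subst hp
        have hi : i ≠ i' := fun h => hne (by rw [h])
        have e1 : ∀ (ψ ψ' : (t p).E →+* X.K) (f : (D p).C.V →ₗ[ℂ] W.W.V)
            (g : W.W.V →ₗ[ℂ] (D p).C.V), g ∘ₗ f = LinearMap.id →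
            mp f ((D p).BC.b.coord (ψ, i')) ((D p).BC.b (ψ', i) ∘ₗ g.restrictScalars ℝ) = 0 := by
          intro ψ ψ' f g hfg
          rw [mp_apply]
          have h6 : ((D p).BC.b (ψ', i) ∘ₗ g.restrictScalars ℝ) ∘ₗ f.restrictScalars ℝ =
              (D p).BC.b (ψ', i) := by
            refine LinearMap.ext fun v => ?_
            show (D p).BC.b (ψ', i) ((g ∘ₗ f) v) = _
            rw [hfg]
            rfl
          rw [h6, Module.Basis.coord_apply, Module.Basis.repr_self, Finsupp.single_eq_of_ne]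
          intro h7
          exact hi (congrArg Prod.snd h7).symm
        exact ⟨e1 _ _ _ _ (W.j11 p), e0 _ _ _ _ (W.n21 p p), e0 _ _ _ _ (W.n12 p p),
          e1 _ _ _ _ (W.j22 p)⟩
      · exact ⟨e0 _ _ _ _ (W.n11 p p' hp), e0 _ _ _ _ (W.n21 p p'), e0 _ _ _ _ (W.n12 p p'),
          e0 _ _ _ _ (W.n22 p p' hp)⟩)
    (by
      rintro ⟨p, i⟩ k
      show mp (W.i2 p) _ (_ ∘ₗ (W.j1 p).restrictScalars ℝ) = 0
      rw [mp_apply]
      have h6 : ((D p).BC.b (gl X.c ((en p).symm k), i) ∘ₗ (W.j1 p).restrictScalars ℝ) ∘ₗ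
          (W.i2 p).restrictScalars ℝ = 0 := by
        refine LinearMap.ext fun v => ?_
        show (D p).BC.b (gl X.c ((en p).symm k), i) ((W.j1 p ∘ₗ W.i2 p) v) = 0
        rw [W.n12]
        exact map_zero _
      rw [h6, map_zero])
    (by
      intro q z hz k
      obtain ⟨q', -, hz'⟩ := Multiset.mem_sum.1 hz
      rw [Multiset.mem_singleton.1 hz']
      have h6 : ∀ (a : (D q.1).C.V →ₗ[ℝ] ℂ) (g : W.W.V →ₗ[ℂ] (D q.1).C.V), g ∘ₗ W.iY = 0 →
          mp (W.iY ∘ₗ κ q'.1) ((t q'.1).B.b.coord (φ q'.1, q'.2)) (a ∘ₗ g.restrictScalars ℝ) =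
            0 := by
        intro a g hg
        rw [mp_apply]
        have h7 : (a ∘ₗ g.restrictScalars ℝ) ∘ₗ (W.iY ∘ₗ κ q'.1).restrictScalars ℝ = 0 := by
          refine LinearMap.ext fun v => ?_
          show a ((g ∘ₗ W.iY) (κ q'.1 v)) = 0
          rw [hg]
          exact map_zero a
        rw [h7, map_zero]
      exact ⟨h6 _ _ (W.n1Y q.1), h6 _ _ (W.n2Y q.1)⟩)
    (by
      rintro ⟨p, i⟩
      have e1 : ∀ (ψ ψ' : (t p).E →+* X.K) (f : (D p).C.V →ₗ[ℂ] W.W.V)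
          (g : W.W.V →ₗ[ℂ] (D p).C.V), g ∘ₗ f = LinearMap.id →
          mp f ((D p).BC.b.coord (ψ, i)) ((D p).BC.b (ψ', i) ∘ₗ g.restrictScalars ℝ) =
            if ψ' = ψ then 1 else 0 := by
        intro ψ ψ' f g hfg
        rw [mp_apply]
        have h6 : ((D p).BC.b (ψ', i) ∘ₗ g.restrictScalars ℝ) ∘ₗ f.restrictScalars ℝ =
            (D p).BC.b (ψ', i) := by
          refine LinearMap.ext fun v => ?_
          show (D p).BC.b (ψ', i) ((g ∘ₗ f) v) = _
          rw [hfg]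
          rfl
        rw [h6, Module.Basis.coord_apply, Module.Basis.repr_self]
        by_cases h : ψ' = ψ
        · rw [if_pos h, h, Finsupp.single_eq_same]
        · rw [if_neg h, Finsupp.single_eq_of_ne]
          intro h7
          exact h (congrArg Prod.fst h7).symm
      show (∑ k, mp (W.i1 p) ((D p).BC.b.coord (gl X.c (φ p), i))
        ((D p).BC.b (gl X.c ((en p).symm k), i) ∘ₗ (W.j1 p).restrictScalars ℝ) *
        mp (W.i2 p) ((D p).BC.b.coord (φ p, i))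
          ((D p).BC.b ((en p).symm k, i) ∘ₗ (W.j2 p).restrictScalars ℝ)) ≠ 0
      rw [Finset.sum_eq_single (en p (φ p))]
      · rw [e1 _ _ _ _ (W.j11 p), e1 _ _ _ _ (W.j22 p), Equiv.symm_apply_apply, if_pos rfl,
          if_pos rfl, one_mul]
        exact one_ne_zero
      · intro k _ hk
        rw [e1 _ _ _ _ (W.j22 p), if_neg, mul_zero]
        intro h
        exact hk (by rw [← h, Equiv.apply_symm_apply])
      · intro h
        exact absurd (Finset.mem_univ _) h)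
    (h3.sub h4)
  have h6 := h5.push hQ W.jY W.jYL
  rw [map_sum_sing] at h6
  refine h6.sub (Finset.sum_congr rfl fun q _ => ?_)
  rw [mp_mp]
  have h7 : W.jY ∘ₗ (W.iY ∘ₗ κ q.1) = κ q.1 := by
    rw [← LinearMap.comp_assoc, W.jYY, LinearMap.id_comp]
  rw [h7]

/-- **TR**, from the Hodge conjecture for abelian varieties of CM type. -/
theorem tTR_of (hHC : HodgeCM) : S_TR := by
  intro Q hQ X n S hD Y σ _ s κ hκ bal
  exact AM.qa hQ _ (tr_am hQ hHC (fun p => S (s p).1) (fun p => (hD (s p).1).some)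
    (fun p => (s p).2) bal Y κ hκ)

end S6
end SE
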