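import Pool.Agent.Lib.SE.S6.Isg1
import Pool.Agent.Lib.SE.S6.TR
import Pool.Agent.Lib.SE.S6.Dcm
import Pool.Agent.Lib.HC.L.Lf

/-!
# PROJECT SE, part S6 (helper96): `DA` and isogenies `J → T × T'`, `T'` of CM type

If `J` is isogenous to `T × T'`, `T'` of CM type with pure coordinates, and the determinant classes
of `J` are in `Q`, those of `T` are.
-/

set_option autoImplicit false

open HC

noncomputable section

namespace SE
namespace S6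

variable {Q : (T : AV) → (m : ℕ) → Hlg T m → Prop} {X : GF}

/-- `δ` of a pure block is odd. -/
theorem blk_odd {C : AV} {E : Type} [Field E] [NumberField E] {r : ℕ} (B : Blk X C E r)
    (hB : B.Pure) (φ : E →+* X.K) : B.δ (gl X.c φ) = -B.δ φ := by
  obtain ⟨e, he1, -, he3, -, he5⟩ := blk_type B hB
  rw [he5, he5, ← Finset.sum_neg_distrib]
  refine Finset.sum_congr rfl fun i _ => ?_
  have h3 := he3 φ i
  have h4 : e φ i * e φ i = -1 := by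
    rcases he1 φ i with h | h
    · rw [h, Complex.I_mul_I]
    · rw [h, neg_mul_neg, Complex.I_mul_I]
  have h5 : e φ i ≠ 0 := fun h => by
    rw [h, mul_zero] at h4
    exact (by norm_num : (0 : ℂ) ≠ -1) h4
  apply mul_right_cancel₀ h5
  rw [h3, neg_mul, h4, neg_neg]

theorem gl_cc {E : Type} [Field E] (φ : E →+* X.K) : gl X.c (gl X.c φ) = φ := by
  ext x
  rw [gl_apply, gl_apply]
  apply X.τ.injective
  rw [X.hc, X.hc, Complex.conj_conj]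

/-- The determinant of `J`, in terms of those of `T` and `T'`. -/
theorem isg_det (hQ : Cl Q) {J T T' : AV} {E₁ E : Type} [Field E₁] [NumberField E₁] [Field E]
    [NumberField E] {r₁ r r' : ℕ} {B₁ : Blk X J E₁ r₁} {B : Blk X T E r} {B' : Blk X T' E r'}
    (D : Isd B₁ B B') (φ : E →+* X.K) (W : AV) (iT : T.V →ₗ[ℂ] W.V) (iT' : T'.V →ₗ[ℂ] W.V)
    (f : J.V →ₗ[ℂ] W.V) (N : ℕ) (hN : N ≠ 0)
    (hf : ∀ v, f v = (N : ℂ) • (iT (D.π v) + iT' (D.π' v))) (s : Multiset (H1 W))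
    (h : AM Q W (∑ i, {mp f (B₁.b.coord (D.l φ, i))} + s)) :
    AM Q W (∑ i, {mp iT (B.b.coord (φ, i))} + ∑ i, {mp iT' (B'.b.coord (φ, i))} + s) := by
  have hexp : ∀ (a : W.V →ₗ[ℝ] ℂ), a ∘ₗ f.restrictScalars ℝ = (N : ℂ) •
      (∑ s : (E →+* X.K) × Fin r, B.b.coord s (a ∘ₗ iT.restrictScalars ℝ) •
        (B.b s ∘ₗ D.π.restrictScalars ℝ) +
      ∑ s : (E →+* X.K) × Fin r', B'.b.coord s (a ∘ₗ iT'.restrictScalars ℝ) •
        (B'.b s ∘ₗ D.π'.restrictScalars ℝ)) := by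
    intro a
    refine LinearMap.ext fun v => ?_
    have h1 : ∀ w, a (iT w) = ∑ s, B.b.coord s (a ∘ₗ iT.restrictScalars ℝ) * B.b s w := by
      intro w
      have h2 := LinearMap.congr_fun (B.b.sum_repr (a ∘ₗ iT.restrictScalars ℝ)) w
      rw [LinearMap.sum_apply] at h2
      exact h2.symm
    have h1' : ∀ w, a (iT' w) = ∑ s, B'.b.coord s (a ∘ₗ iT'.restrictScalars ℝ) * B'.b s w := by
      intro w
      have h2 := LinearMap.congr_fun (B'.b.sum_repr (a ∘ₗ iT'.restrictScalars ℝ)) w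
      rw [LinearMap.sum_apply] at h2
      exact h2.symm
    rw [LinearMap.smul_apply, LinearMap.add_apply, LinearMap.sum_apply, LinearMap.sum_apply]
    show a (f v) = (N : ℂ) * (∑ s, B.b.coord s _ * B.b s (D.π v) +
      ∑ s, B'.b.coord s _ * B'.b s (D.π' v))
    rw [← h1, ← h1', hf]
    have h3 : (N : ℂ) • (iT (D.π v) + iT' (D.π' v)) = (N : ℝ) • (iT (D.π v) + iT' (D.π' v)) := by
      rw [← Complex.coe_smul]
      norm_num
    rw [h3, a.map_smul, a.map_add, Complex.real_smul]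
    norm_num
  have hy : ∀ i, mp f (B₁.b.coord (D.l φ, i)) = ∑ s : Fin r ⊕ Fin r', ((N : ℂ) * D.M φ i s) •
      Sum.elim (fun j => mp iT (B.b.coord (φ, j))) (fun j => mp iT' (B'.b.coord (φ, j))) s := by
    intro i
    refine LinearMap.ext fun a => ?_
    rw [mp_apply, hexp, map_smul, map_add, map_sum, map_sum, LinearMap.sum_apply,
      Fintype.sum_sum_type, smul_add, Finset.smul_sum, Finset.smul_sum]
    congr 1
    · rw [Fintype.sum_prod_type, Finset.sum_eq_single φ]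
      · refine Finset.sum_congr rfl fun j _ => ?_
        rw [map_smul, smul_smul]
        show (N : ℂ) * B.b.coord (φ, j) (a ∘ₗ iT.restrictScalars ℝ) * D.M φ i (Sum.inl j) =
          (N : ℂ) * D.M φ i (Sum.inl j) * B.b.coord (φ, j) (a ∘ₗ iT.restrictScalars ℝ)
        ring
      · intro ψ _ hψ
        refine Finset.sum_eq_zero fun j _ => ?_
        have h1 : B₁.b.coord (D.l φ, i) (B.b (ψ, j) ∘ₗ D.π.restrictScalars ℝ) = 0 :=
          eig_coord B₁ (D.l ψ) _ (D.Ps_eig ψ (Sum.inl j)) (D.l φ)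
            (fun h => hψ (D.l_inj h).symm) i
        rw [map_smul, h1, smul_zero, smul_zero]
      · intro h
        exact absurd (Finset.mem_univ φ) h
    · rw [Fintype.sum_prod_type, Finset.sum_eq_single φ]
      · refine Finset.sum_congr rfl fun j _ => ?_
        rw [map_smul, smul_smul]
        show (N : ℂ) * B'.b.coord (φ, j) (a ∘ₗ iT'.restrictScalars ℝ) * D.M φ i (Sum.inr j) =
          (N : ℂ) * D.M φ i (Sum.inr j) * B'.b.coord (φ, j) (a ∘ₗ iT'.restrictScalars ℝ)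
        ring
      · intro ψ _ hψ
        refine Finset.sum_eq_zero fun j _ => ?_
        have h1 : B₁.b.coord (D.l φ, i) (B'.b (ψ, j) ∘ₗ D.π'.restrictScalars ℝ) = 0 :=
          eig_coord B₁ (D.l ψ) _ (D.Ps_eig ψ (Sum.inr j)) (D.l φ)
            (fun h => hψ (D.l_inj h).symm) i
        rw [map_smul, h1, smul_zero, smul_zero]
      · intro h
        exact absurd (Finset.mem_univ φ) h
  have h2 := AM.lin hQ (Sum.elim (fun j => mp iT (B.b.coord (φ, j)))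
    (fun j => mp iT' (B'.b.coord (φ, j)))) _ _ hy (D.rank φ) (fun c hc => D.ker φ c fun i => by
      have h3 := hc i
      simp only [mul_assoc] at h3
      rw [← Finset.mul_sum] at h3
      exact (mul_eq_zero.1 h3).resolve_left (Nat.cast_ne_zero.2 hN)) s h
  rw [Fintype.sum_sum_type] at h2
  exact h2

/-- **`DA` and isogenies.** -/
theorem da_isd (hHC : HodgeCM) (hQ : Cl Q) (t t₁ : Tp X) (D₁ : DA Q t₁) (T' : AV)
    (hT' : IsCM T') {r' : ℕ} (B' : Blk X T' t.E r') (hB' : B'.Pure) (D : Isd t₁.B t.B B')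
    (N : ℕ) (hN : N ≠ 0) (hπ : ∀ v ∈ t₁.T.L, N • D.π v ∈ t.T.L)
    (hπ' : ∀ v ∈ t₁.T.L, N • D.π' v ∈ T'.L) (C : AV) (hC : IsCM C) (BC : Blk X C t.E t.r)
    (hBC : BC.Pure) (hδ : ∀ φ, t.B.δ φ = BC.δ φ) : Nonempty (DA Q t) := by
  refine ⟨{ C := C, cm := hC, BC := BC, pure := hBC, type := hδ, alg := ?_ }⟩
  intro φ P i₁ i₂ hi₁ hi₂
  obtain ⟨W0⟩ := exW3 P.T fun _ : Unit => T'
  obtain ⟨W1⟩ := exW3 W0.W fun _ : Unit => D₁.C
  have l1 : ∀ v ∈ t.T.L, i₁ v ∈ P.T.L := fun v hv => (P.lat _).2 (by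
    rw [hi₁]
    exact ⟨hv, C.L.zero_mem⟩)
  have l2 : ∀ v ∈ C.L, i₂ v ∈ P.T.L := fun v hv => (P.lat _).2 (by
    rw [hi₂]
    exact ⟨t.T.L.zero_mem, hv⟩)
  have hcomm : ∀ g : X.G, gl g (gl X.c φ) = gl X.c (gl g φ) := fun g => gl_comm t g φ
  have a1 := tr_one hQ t₁ D₁ (D.l φ) W1.W
    ((N : ℂ) • (W1.iY ∘ₗ (W0.iY ∘ₗ i₁ ∘ₗ D.π + W0.i1 () ∘ₗ D.π'))) (W1.i1 ())
    (fun v hv => by
      show (N : ℂ) • W1.iY (W0.iY (i₁ (D.π v)) + W0.i1 () (D.π' v)) ∈ W1.W.L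
      rw [← W1.iY.map_smul, smul_add, ← W0.iY.map_smul, ← i₁.map_smul, ← (W0.i1 ()).map_smul]
      refine W1.iYL _ (W0.W.L.add_mem (W0.iYL _ (l1 _ ?_)) (W0.i1L () _ ?_))
      · rw [Nat.cast_smul_eq_nsmul]
        exact hπ v hv
      · rw [Nat.cast_smul_eq_nsmul]
        exact hπ' v hv)
    (W1.i1L ())
  have a2 := isg_det hQ D φ W1.W (W1.iY ∘ₗ W0.iY ∘ₗ i₁) (W1.iY ∘ₗ W0.i1 ()) _ N hN (fun v => by
    show (N : ℂ) • W1.iY (W0.iY (i₁ (D.π v)) + W0.i1 () (D.π' v)) =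
      (N : ℂ) • (W1.iY (W0.iY (i₁ (D.π v))) + W1.iY (W0.i1 () (D.π' v)))
    rw [map_add]) _ a1
  have a3 := cm3 hQ hHC B' D₁.BC BC hT' D₁.cm hC hB' D₁.pure hBC (gl X.c φ) (D.l φ) (gl X.c φ)
    (fun g => by
      rw [hcomm, blk_odd B' hB', blk_odd BC hBC, ← D₁.type, ← D.l_gl, D.delta, hδ]
      ring) W1.W (W1.iY ∘ₗ W0.i2 ()) (W1.i2 ()) (W1.iY ∘ₗ W0.iY ∘ₗ i₂)
    (fun v hv => W1.iYL _ (W0.i2L () v hv)) (W1.i2L ())
    (fun v hv => W1.iYL _ (W0.iYL _ (l2 v hv)))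
  have a4 := contr hQ D₁.BC D₁.pure t₁.inv t₁.hinv (D.l φ) W0.W W1
    (∑ i, {mp (W0.iY ∘ₗ i₁) (t.B.b.coord (φ, i))} + ∑ i, {mp (W0.i1 ()) (B'.b.coord (φ, i))} +
      ∑ i, {mp (W0.i2 ()) (B'.b.coord (gl X.c φ, i))} +
      ∑ i, {mp (W0.iY ∘ₗ i₂) (BC.b.coord (gl X.c φ, i))}) ((AM.add hQ a2 a3).sub (by
    rw [Multiset.map_add, Multiset.map_add, Multiset.map_add, map_sum_sing, map_sum_sing,
      map_sum_sing, map_sum_sing]
    simp only [mp_mp]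
    abel))
  have a5 := contr hQ B' hB' t.inv t.hinv (gl X.c φ) P.T W0
    (∑ i, {mp i₁ (t.B.b.coord (φ, i))} + ∑ i, {mp i₂ (BC.b.coord (gl X.c φ, i))}) (a4.sub (by
    rw [Multiset.map_add, map_sum_sing, map_sum_sing, gl_cc]
    simp only [mp_mp]
    abel))
  rw [← sing_append] at a5
  have a6 := a5.q hQ
  rw [← tWdg.2.2.1] at a6
  rw [tWdg.2.1, tWdg.2.1]
  exact a6

end S6

/-- **THEOREM (P5)**: `DA` for `T` from `DA` for `J`, `J` isogenous to `T × T'`, `T'` of CM type. -/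
theorem da_isog {Q : (T : AV) → (m : ℕ) → Hlg T m → Prop} {X : GF} (hHC : HodgeCM) (hQ : Cl Q)
    (t t₁ : Tp X) (e : t.E ≃+* t₁.E) (D₁ : DA Q t₁) (T' : AV) (hT' : IsCM T') {r' : ℕ}
    (B' : Blk X T' t.E r') (hB' : B'.Pure) (ψ : t₁.T.V ≃ₗ[ℂ] t.T.V × T'.V)
    (hψ : ∀ v ∈ t₁.T.L, ∃ k : ℕ, k ≠ 0 ∧ k • (ψ v).1 ∈ t.T.L ∧ k • (ψ v).2 ∈ T'.L)
    (hE : ∀ x v, ψ (t₁.B.ρ (e x) v) = (t.B.ρ x (ψ v).1, B'.ρ x (ψ v).2)) (C : AV)
    (hC : IsCM C) (BC : Blk X C t.E t.r) (hBC : BC.Pure) (hδ : ∀ φ, t.B.δ φ = BC.δ φ) :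
    Nonempty (DA Q t) := by
  let π : t₁.T.V →ₗ[ℂ] t.T.V := LinearMap.fst ℂ _ _ ∘ₗ ψ.toLinearMap
  let π' : t₁.T.V →ₗ[ℂ] T'.V := LinearMap.snd ℂ _ _ ∘ₗ ψ.toLinearMap
  obtain ⟨N, hN, h1⟩ := LfAux.unif (T := t₁.T) (T' := t.T) π fun v hv => by
    obtain ⟨k, hk, h, -⟩ := hψ v hv
    exact ⟨k, hk, h⟩
  obtain ⟨N', hN', h2⟩ := LfAux.unif (T := t₁.T) (T' := T') π' fun v hv => by
    obtain ⟨k, hk, -, h⟩ := hψ v hv
    exact ⟨k, hk, h⟩
  refine S6.da_isd hHC hQ t t₁ D₁ T' hT' B' hB' ⟨e, π, π', ?_, ?_, ?_, ?_⟩ (N * N')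
    (mul_ne_zero hN hN') ?_ ?_ C hC BC hBC hδ
  · intro u u'
    refine ⟨ψ.symm (u, u'), ?_, ?_⟩
    · show (ψ (ψ.symm (u, u'))).1 = u
      rw [LinearEquiv.apply_symm_apply]
    · show (ψ (ψ.symm (u, u'))).2 = u'
      rw [LinearEquiv.apply_symm_apply]
  · intro v hv hv'
    apply ψ.injective
    rw [map_zero]
    exact Prod.ext hv hv'
  · intro x v
    exact congrArg Prod.fst (hE x v)
  · intro x v
    exact congrArg Prod.snd (hE x v)
  · intro v hv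
    rw [mul_comm, mul_nsmul']
    exact t.T.L.smul_of_tower_mem N' (h1 v hv)
  · intro v hv
    rw [mul_nsmul']
    exact T'.L.smul_of_tower_mem N (h2 v hv)

end SE
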