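import Pool.Agent.Lib.SE.S6.TR
import Pool.Agent.Lib.HC.All

/-!
# PROJECT SE, part S6 (helper96): `S_TR` without hypotheses
-/

set_option autoImplicit false

noncomputable section

namespace SE

/-- **TR**. -/
theorem tTR : S_TR := S6.tTR_of HC.hodgeCM

end SE
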