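import Pool.Agent.Lib.SE.S6.Ded

/-!
# PROJECT SE, part S6 (helper96): the coordinates of a block

* `Blk.cj`: the coordinate with the conjugate label is the conjugate coordinate.
* `Blk.coord_I`: the dual basis is pure.
* `Blk.coord_rat`: the values of the dual basis on a rational form are Galois conjugate.
-/

set_option autoImplicit false

open scoped ComplexConjugate
open HC

noncomputable section

namespace SE
namespace S6

variable {X : GF} {T : AV} {E : Type} [Field E] [NumberField E] {r : ℕ}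

/-- Two real linear functions which agree on the lattice. -/
theorem lat_ext {T : AV} {a b : T.V →ₗ[ℝ] ℂ} (h : ∀ v ∈ T.L, a v = b v) : a = b := by
  refine LinearMap.ext_on (s := (T.L : Set T.V)) ?_ fun v hv => h v hv
  exact T.latt.span_top

theorem blk_cj (B : Blk X T E r) (φ : E →+* X.K) (i : Fin r) (v : T.V) :
    B.b (gl X.c φ, i) v = conj (B.b (φ, i) v) := by
  have h : B.b (gl X.c φ, i) = cjl (B.b (φ, i)) := by
    refine lat_ext fun v hv => ?_
    obtain ⟨y, hy⟩ := B.lat v hv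
    rw [hy, cjl_apply, hy, gl_apply, X.hc]
  rw [h, cjl_apply]

theorem blk_ne (B : Blk X T E r) (φ : E →+* X.K) (i : Fin r) : ∃ v, B.b (φ, i) v ≠ 0 := by
  by_contra h
  refine B.b.ne_zero (φ, i) (LinearMap.ext fun v => ?_)
  by_contra h1
  exact h ⟨v, h1⟩

/-- The type of the coordinates. -/
theorem blk_type (B : Blk X T E r) (hB : B.Pure) : ∃ e : (E →+* X.K) → Fin r → ℂ,
    (∀ φ i, e φ i = Complex.I ∨ e φ i = -Complex.I) ∧
    (∀ φ i v, B.b (φ, i) (Complex.I • v) = e φ i * B.b (φ, i) v) ∧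
    (∀ φ i, e (gl X.c φ) i * e φ i = 1) ∧
    (∀ φ i a, B.b.coord (φ, i) (a ∘ₗ mulI T) = e φ i * B.b.coord (φ, i) a) ∧
    ∀ φ, B.δ φ = ∑ i, e φ i := by
  choose e he1 he2 using hB
  have h4 : ∀ φ i a, B.b.coord (φ, i) (a ∘ₗ mulI T) = e φ i * B.b.coord (φ, i) a := by
    intro φ i a
    have h1 : ∀ s, B.b s ∘ₗ mulI T = e s.1 s.2 • B.b s := fun s =>
      LinearMap.ext fun v => he2 s.1 s.2 v
    have h2 : a ∘ₗ mulI T = ∑ s, (B.b.coord s a * e s.1 s.2) • B.b s := by
      conv_lhs => rw [← B.b.sum_repr a]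
      refine LinearMap.ext fun v => ?_
      rw [LinearMap.comp_apply, LinearMap.sum_apply, LinearMap.sum_apply]
      refine Finset.sum_congr rfl fun s _ => ?_
      have h3 := LinearMap.congr_fun (h1 s) v
      rw [LinearMap.comp_apply] at h3
      rw [LinearMap.smul_apply, h3]
      show B.b.repr a s • (e s.1 s.2 • B.b s v) = (B.b.repr a s * e s.1 s.2) • B.b s v
      rw [smul_smul]
    rw [h2, map_sum, Finset.sum_eq_single (φ, i)]
    · rw [map_smul, Module.Basis.coord_apply, Module.Basis.coord_apply, Module.Basis.repr_self,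
        Finsupp.single_eq_same, smul_eq_mul, mul_one, mul_comm]
    · intro s _ hs
      rw [map_smul, Module.Basis.coord_apply, Module.Basis.coord_apply, Module.Basis.repr_self,
        Finsupp.single_eq_of_ne (Ne.symm hs), smul_zero]
    · intro h
      exact absurd (Finset.mem_univ _) h
  refine ⟨e, he1, he2, fun φ i => ?_, h4, fun φ => ?_⟩
  · obtain ⟨v, hv⟩ := blk_ne B φ i
    have h1 : e (gl X.c φ) i = conj (e φ i) := by
      have h2 := he2 (gl X.c φ) i v
      rw [blk_cj, blk_cj, he2, map_mul] at h2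
      exact (mul_right_cancel₀ (fun h => hv ((map_eq_zero _).1 h)) h2).symm
    rw [h1]
    rcases he1 φ i with h | h
    · rw [h, Complex.conj_I, neg_mul, Complex.I_mul_I, neg_neg]
    · rw [h, map_neg, Complex.conj_I, neg_neg, mul_neg, Complex.I_mul_I, neg_neg]
  · unfold Blk.δ
    refine Finset.sum_congr rfl fun i _ => ?_
    rw [h4, Module.Basis.coord_apply, Module.Basis.repr_self, Finsupp.single_eq_same, mul_one]

/-- The values of the dual basis on a rational form are Galois conjugate. -/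
theorem blk_rat (B : Blk X T E r) (φ : E →+* X.K) (i : Fin r) (a : T.V →ₗ[ℝ] ℂ)
    (ha : ∀ v ∈ T.L, ∃ q : ℚ, a v = q) :
    ∃ k : X.K, ∀ g : X.G, B.b.coord (gl g φ, i) a = X.τ (g k) := by
  classical
  obtain ⟨n, ν, lam, h1, h2⟩ := ded (X := X) φ
  have h3 : ∀ k, ∃ q : ℚ, ∑ ψ : E →+* X.K, B.b.coord (ψ, i) a * X.τ (ψ (lam k)) = q := by
    intro k
    obtain ⟨N, hN, v, hv, hb⟩ := B.mem (Pi.single i (lam k))
    obtain ⟨q, hq⟩ := ha v hv
    refine ⟨q / N, ?_⟩
    have h4 : a v = ∑ s, B.b.coord s a * B.b s v := by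
      conv_lhs => rw [← B.b.sum_repr a]
      rw [LinearMap.sum_apply]
      rfl
    rw [Fintype.sum_prod_type] at h4
    have h5 : a v = (N : ℂ) * ∑ ψ : E →+* X.K, B.b.coord (ψ, i) a * X.τ (ψ (lam k)) := by
      rw [h4, Finset.mul_sum]
      refine Finset.sum_congr rfl fun ψ _ => ?_
      rw [Finset.sum_eq_single i]
      · rw [hb, Pi.single_eq_same]
        ring
      · intro j _ hj
        rw [hb, Pi.single_eq_of_ne hj, map_zero, map_zero, mul_zero, mul_zero]
      · intro h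
        exact absurd (Finset.mem_univ i) h
    have hN' : (N : ℂ) ≠ 0 := Nat.cast_ne_zero.2 hN
    push_cast
    rw [eq_div_iff hN', mul_comm, ← h5, hq]
  choose q hq using h3
  refine ⟨∑ k, ν k * (q k : X.K), fun g => ?_⟩
  have h6 : ∀ ψ : E →+* X.K, ∑ k, X.τ (g (ν k)) * X.τ (ψ (lam k)) =
      if ψ = gl g φ then 1 else 0 := by
    intro ψ
    have h7 : ψ = gl g (gl g⁻¹ ψ) := by
      rw [← gl_mul, mul_inv_cancel, gl_one]
    have h8 : ∑ k, X.τ (g (ν k)) * X.τ (ψ (lam k)) = X.τ (g (∑ k, ν k * (gl g⁻¹ ψ) (lam k))) := by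
      rw [map_sum, map_sum]
      refine Finset.sum_congr rfl fun k _ => ?_
      rw [map_mul, map_mul, ← gl_apply g (gl g⁻¹ ψ), ← h7]
    rw [h8]
    by_cases h : ψ = gl g φ
    · rw [if_pos h]
      have h9 : gl g⁻¹ ψ = φ := by
        rw [h, ← gl_mul, inv_mul_cancel, gl_one]
      rw [h9, h1, map_one, map_one]
    · rw [if_neg h, h2 _ (fun h9 => h (by rw [h7, h9])), map_zero, map_zero]
  have h10 : X.τ (g (∑ k, ν k * (q k : X.K))) = ∑ k, X.τ (g (ν k)) * (q k : ℂ) := by
    rw [map_sum, map_sum]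
    refine Finset.sum_congr rfl fun k _ => ?_
    rw [map_mul, map_mul, map_ratCast, map_ratCast]
  rw [h10]
  have h11 : ∑ k, X.τ (g (ν k)) * (q k : ℂ) =
      ∑ ψ : E →+* X.K, B.b.coord (ψ, i) a * ∑ k, X.τ (g (ν k)) * X.τ (ψ (lam k)) := by
    have h12 : ∀ k, X.τ (g (ν k)) * (q k : ℂ) =
        ∑ ψ : E →+* X.K, X.τ (g (ν k)) * (B.b.coord (ψ, i) a * X.τ (ψ (lam k))) := by
      intro k
      rw [← hq k, Finset.mul_sum]
    rw [Finset.sum_congr rfl fun k _ => h12 k, Finset.sum_comm]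
    refine Finset.sum_congr rfl fun ψ _ => ?_
    rw [Finset.mul_sum]
    refine Finset.sum_congr rfl fun k _ => ?_
    ring
  rw [h11, Finset.sum_congr rfl fun ψ _ => by rw [h6 ψ]]
  rw [Finset.sum_eq_single (gl g φ)]
  · rw [if_pos rfl, mul_one]
  · intro ψ _ h
    rw [if_neg h, mul_zero]
  · intro h
    exact absurd (Finset.mem_univ _) h

end S6
end SE
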