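import Pool.Agent.Lib.SE.S6.Mul

/-!
# PROJECT SE, part S6 (helper96): removing several pairs
-/

set_option autoImplicit false

noncomputable section

namespace SE
namespace S6

open HC

variable {Q : (T : AV) → (m : ℕ) → Hlg T m → Prop}

/-- Removing several pairs. -/
theorem AM.cap_all (hQ : Cl Q) {T : AV} {I : Type} (F : Finset I) (x y : I → H1 T)
    (s : Multiset (H1 T)) (r : I → ℕ) (p q : ∀ i, Fin (r i) → (T.V →ₗ[ℝ] ℂ))
    (hd : ∀ i, IsDiv T (p i) (q i))
    (hx : ∀ i i', i ≠ i' → ∀ j, x i' (p i j) = 0 ∧ x i' (q i j) = 0 ∧ y i' (p i j) = 0 ∧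
      y i' (q i j) = 0)
    (hy : ∀ i j, y i (p i j) = 0)
    (hs : ∀ i, ∀ z ∈ s, ∀ j, z (p i j) = 0 ∧ z (q i j) = 0)
    (h0 : ∀ i, ∑ j, x i (p i j) * y i (q i j) ≠ 0)
    (h : AM Q T (∑ i ∈ F, ({x i} + {y i}) + s)) : AM Q T s := by
  classical
  induction F using Finset.induction_on with
  | empty =>
    rw [Finset.sum_empty, zero_add] at h
    exact h
  | insert i F hi ih =>
    refine ih ?_
    rw [Finset.sum_insert hi, add_assoc] at h
    have hm : ∀ z ∈ (∑ i ∈ F, ({x i} + {y i}) + s), ∀ j, z (p i j) = 0 ∧ z (q i j) = 0 := by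
      intro z hz j
      rcases Multiset.mem_add.1 hz with hz | hz
      · obtain ⟨i', hi', hz⟩ := Multiset.mem_sum.1 hz
        have hne : i ≠ i' := fun h => hi (h ▸ hi')
        have h1 := hx i i' hne j
        rcases Multiset.mem_add.1 hz with hz | hz
        · rw [Multiset.mem_singleton.1 hz]
          exact ⟨h1.1, h1.2.1⟩
        · rw [Multiset.mem_singleton.1 hz]
          exact ⟨h1.2.2.1, h1.2.2.2⟩
      · exact hs i z hz j
    exact AM.cap hQ (x i) (y i) h (p i) (q i) (hd i) (hy i) (fun z hz j => (hm z hz j).1)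
      (fun z hz j => (hm z hz j).2) (h0 i)

end S6
end SE
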