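import Pool.Agent.Lib.SE.S6.Core
import Pool.Agent.Lib.SE.S6.W3
import Pool.Agent.Lib.SE.S6.DivP
import Pool.Agent.Lib.SE.S6.Pt

/-!
# PROJECT SE, part S6 (helper96): CONTRACTION
-/

set_option autoImplicit false

open HC

noncomputable section

namespace SE
namespace S6

variable {Q : (T : AV) → (m : ℕ) → Hlg T m → Prop} {X : GF}

/-- **CONTRACTION**: removing `det_(c φ)(C)` and `det_φ(C)` on two copies of `C`. -/
theorem contr (hQ : Cl Q) {C : AV} {E : Type} [Field E] [NumberField E] {r : ℕ}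
    (B : Blk X C E r) (hB : B.Pure) (inv : E ≃+* E)
    (hinv : ∀ (φ : E →+* X.K) (x : E), φ (inv x) = X.c (φ x)) (φ : E →+* X.K) (Y : AV)
    (W : W3 Y (fun _ : Unit => C)) (s : Multiset (H1 Y))
    (h : AM Q W.W (∑ i, {mp (W.i1 ()) (B.b.coord (gl X.c φ, i))} +
      ∑ i, {mp (W.i2 ()) (B.b.coord (φ, i))} + s.map (mp W.iY))) : AM Q Y s := by
  classical
  obtain ⟨en⟩ : Nonempty ((E →+* X.K) ≃ Fin (Fintype.card (E →+* X.K))) :=
    ⟨Fintype.equivFin _⟩
  rw [← Finset.sum_add_distrib] at h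
  have e0 : ∀ {A A' : AV} (x : H1 A) (a : A'.V →ₗ[ℝ] ℂ) (f : A.V →ₗ[ℂ] W.W.V)
      (g : W.W.V →ₗ[ℂ] A'.V), g ∘ₗ f = 0 → mp f x (a ∘ₗ g.restrictScalars ℝ) = 0 := by
    intro A A' x a f g hfg
    rw [mp_apply]
    have h6 : (a ∘ₗ g.restrictScalars ℝ) ∘ₗ f.restrictScalars ℝ = 0 := by
      refine LinearMap.ext fun v => ?_
      show a ((g ∘ₗ f) v) = 0
      rw [hfg]
      exact map_zero a
    rw [h6, map_zero]
  have e1 : ∀ (ψ ψ' : E →+* X.K) (i i' : Fin r) (f : C.V →ₗ[ℂ] W.W.V)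
      (g : W.W.V →ₗ[ℂ] C.V), g ∘ₗ f = LinearMap.id →
      mp f (B.b.coord (ψ, i')) (B.b (ψ', i) ∘ₗ g.restrictScalars ℝ) =
        if (ψ', i) = (ψ, i') then 1 else 0 := by
    intro ψ ψ' i i' f g hfg
    rw [mp_apply]
    have h6 : (B.b (ψ', i) ∘ₗ g.restrictScalars ℝ) ∘ₗ f.restrictScalars ℝ = B.b (ψ', i) := by
      refine LinearMap.ext fun v => ?_
      show B.b (ψ', i) ((g ∘ₗ f) v) = _
      rw [hfg]
      rfl
    rw [h6, Module.Basis.coord_apply, Module.Basis.repr_self]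
    by_cases h : (ψ', i) = (ψ, i')
    · rw [if_pos h, h, Finsupp.single_eq_same]
    · rw [if_neg h, Finsupp.single_eq_of_ne]
      exact fun h7 => h h7.symm
  have h5 := AM.cap_all hQ Finset.univ
    (fun i : Fin r => mp (W.i1 ()) (B.b.coord (gl X.c φ, i)))
    (fun i => mp (W.i2 ()) (B.b.coord (φ, i))) (s.map (mp W.iY))
    (fun _ => Fintype.card (E →+* X.K))
    (fun i k => B.b (gl X.c (en.symm k), i) ∘ₗ (W.j1 ()).restrictScalars ℝ)
    (fun i k => B.b (en.symm k, i) ∘ₗ (W.j2 ()).restrictScalars ℝ)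
    (fun i => isDiv_pair B hB inv hinv W.W (W.j1 ()) (W.j2 ()) (W.j1L ()) (W.j2L ()) i en)
    (fun i i' hne k => by
      refine ⟨?_, e0 _ _ _ _ (W.n21 () ()), e0 _ _ _ _ (W.n12 () ()), ?_⟩
      · rw [e1 _ _ _ _ _ _ (W.j11 ()), if_neg]
        exact fun h => hne (congrArg Prod.snd h)
      · rw [e1 _ _ _ _ _ _ (W.j22 ()), if_neg]
        exact fun h => hne (congrArg Prod.snd h))
    (fun i k => e0 _ _ _ _ (W.n12 () ()))
    (fun i z hz k => by
      obtain ⟨x, -, rfl⟩ := Multiset.mem_map.1 hz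
      exact ⟨e0 _ _ _ _ (W.n1Y ()), e0 _ _ _ _ (W.n2Y ())⟩)
    (fun i => by
      rw [Finset.sum_eq_single (en φ)]
      · rw [e1 _ _ _ _ _ _ (W.j11 ()), e1 _ _ _ _ _ _ (W.j22 ()), Equiv.symm_apply_apply,
          if_pos rfl, if_pos rfl, one_mul]
        exact one_ne_zero
      · intro k _ hk
        rw [e1 _ _ _ _ _ _ (W.j22 ()), if_neg, mul_zero]
        intro h
        have h8 : en.symm k = φ := congrArg Prod.fst h
        exact hk (by rw [← h8, Equiv.apply_symm_apply])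
      · intro h
        exact absurd (Finset.mem_univ _) h)
    h
  have h6 := h5.push hQ W.jY W.jYL
  rw [Multiset.map_map] at h6
  refine h6.sub ?_
  have h7 : (mp W.jY ∘ mp W.iY : H1 Y → H1 Y) = id := by
    funext x
    show mp W.jY (mp W.iY x) = x
    rw [mp_mp, W.jYY]
    rfl
  rw [h7, Multiset.map_id]

end S6
end SE
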