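import Pool.Agent.Lib.SE.S6.BlkR
import Pool.Agent.Lib.SE.S6.CMbal
import Pool.Agent.Lib.SE.S6.W3
import Pool.Agent.Lib.SE.S6.Pt
import Pool.Agent.Lib.HC.L.E.Cm

/-!
# PROJECT SE, part S6 (helper96): Galois conjugate pure tuples, balanced products of three blocks
-/

set_option autoImplicit false

open HC

noncomputable section

namespace SE
namespace S6

/-- `u g`, `g ∈ G`, are Galois conjugate pure tuples of the types `e g`. -/
structure Gc (X : GF) (W : AV) {m : ℕ} (u : X.G → Fin m → H1 W) (e : X.G → Fin m → ℂ) :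
    Prop where
  rat : ∀ i (a : W.V →ₗ[ℝ] ℂ), (∀ v ∈ W.L, ∃ q : ℚ, a v = q) →
    ∃ k : X.K, ∀ g, u g i a = X.τ (g k)
  val : ∀ g i, e g i = Complex.I ∨ e g i = -Complex.I
  typ : ∀ g i a, u g i (a ∘ₗ mulI W) = e g i * u g i a

variable {X : GF}

/-- A block. -/
theorem Gc.blk {A : AV} {E : Type} [Field E] [NumberField E] {r : ℕ} (B : Blk X A E r)
    (hB : B.Pure) (φ : E →+* X.K) (W : AV) (j : A.V →ₗ[ℂ] W.V) (hj : ∀ v ∈ A.L, j v ∈ W.L) :
    ∃ e : X.G → Fin r → ℂ, Gc X W (fun g i => mp j (B.b.coord (gl g φ, i))) e ∧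
      ∀ g, ∑ i, e g i = B.δ (gl g φ) := by
  obtain ⟨e, he1, he2, he3, he4, he5⟩ := blk_type B hB
  refine ⟨fun g i => e (gl g φ) i, ⟨fun i a ha => ?_, fun g i => he1 _ _, fun g i a => ?_⟩,
    fun g => (he5 _).symm⟩
  · exact blk_rat B φ i (a ∘ₗ j.restrictScalars ℝ) fun v hv => ha _ (hj v hv)
  · have h3 := he4 (gl g φ) i (a ∘ₗ j.restrictScalars ℝ)
    have h4 : (a ∘ₗ mulI W) ∘ₗ j.restrictScalars ℝ =
        (a ∘ₗ j.restrictScalars ℝ) ∘ₗ mulI A := by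
      refine LinearMap.ext fun v => ?_
      show a (Complex.I • j v) = a (j (Complex.I • v))
      rw [j.map_smul]
    rw [mp_apply, mp_apply, h4]
    exact h3

/-- Two tuples. -/
theorem Gc.append {W : AV} {m n : ℕ} {u : X.G → Fin m → H1 W} {e : X.G → Fin m → ℂ}
    {u' : X.G → Fin n → H1 W} {e' : X.G → Fin n → ℂ} (h : Gc X W u e) (h' : Gc X W u' e') :
    Gc X W (fun g => Fin.append (u g) (u' g)) fun g => Fin.append (e g) (e' g) := by
  refine ⟨fun k a ha => ?_, fun g k => ?_, fun g k a => ?_⟩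
  · refine Fin.addCases (fun i => ?_) (fun i => ?_) k
    · obtain ⟨x, hx⟩ := h.rat i a ha
      refine ⟨x, fun g => ?_⟩
      rw [Fin.append_left]
      exact hx g
    · obtain ⟨x, hx⟩ := h'.rat i a ha
      refine ⟨x, fun g => ?_⟩
      rw [Fin.append_right]
      exact hx g
  · refine Fin.addCases (fun i => ?_) (fun i => ?_) k
    · rw [Fin.append_left]
      exact h.val _ _
    · rw [Fin.append_right]
      exact h'.val _ _
  · refine Fin.addCases (fun i => ?_) (fun i => ?_) k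
    · rw [Fin.append_left, Fin.append_left]
      exact h.typ _ _ _
    · rw [Fin.append_right, Fin.append_right]
      exact h'.typ _ _ _

theorem sum_append {m n : ℕ} (e : Fin m → ℂ) (e' : Fin n → ℂ) :
    ∑ i, Fin.append e e' i = ∑ i, e i + ∑ i, e' i := by
  rw [Fin.sum_univ_add]
  simp only [Fin.append_left, Fin.append_right]

/-- Balanced: algebraic. -/
theorem Gc.alg {W : AV} {m : ℕ} {u : X.G → Fin m → H1 W} {e : X.G → Fin m → ℂ}
    (h : Gc X W u e) (hW : HCj W) (hb : ∀ g, ∑ i, e g i = 0) (g : X.G) : Alg W m (wdg (u g)) :=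
  cmbal hW u h.rat e h.val h.typ hb g

theorem sing_append {α : Type*} {m n : ℕ} (x : Fin m → α) (y : Fin n → α) :
    (∑ k, ({Fin.append x y k} : Multiset α)) = ∑ i, {x i} + ∑ i, {y i} := by
  rw [sum_sing, sum_sing, sum_sing, Fin.univ_val_map, Fin.univ_val_map, Fin.univ_val_map,
    List.ofFn_fin_append]
  rfl

theorem isCM_pd {A B : AV} (P : Pd A B) (hA : IsCM A) (hB : IsCM B) : IsCM P.T :=
  isCM_prod hA hB ⟨P.ψ, fun v hv => ⟨1, one_ne_zero, by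
    rw [one_smul]
    exact ((P.lat v).1 hv).1, by
    rw [one_smul]
    exact ((P.lat v).1 hv).2⟩⟩

variable {Q : (T : AV) → (m : ℕ) → Hlg T m → Prop}

/-- **Balanced products of three blocks.** -/
theorem cm3 (hQ : Cl Q) (hHC : HodgeCM) {A B C : AV} {EA EB EC : Type} [Field EA]
    [NumberField EA] [Field EB] [NumberField EB] [Field EC] [NumberField EC] {rA rB rC : ℕ}
    (BA : Blk X A EA rA) (BB : Blk X B EB rB) (BC : Blk X C EC rC) (hA : IsCM A) (hB : IsCM B)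
    (hC : IsCM C) (pA : BA.Pure) (pB : BB.Pure) (pC : BC.Pure) (φA : EA →+* X.K)
    (φB : EB →+* X.K) (φC : EC →+* X.K)
    (bal : ∀ g : X.G, BA.δ (gl g φA) + BB.δ (gl g φB) + BC.δ (gl g φC) = 0) (W : AV)
    (jA : A.V →ₗ[ℂ] W.V) (jB : B.V →ₗ[ℂ] W.V) (jC : C.V →ₗ[ℂ] W.V)
    (lA : ∀ v ∈ A.L, jA v ∈ W.L) (lB : ∀ v ∈ B.L, jB v ∈ W.L) (lC : ∀ v ∈ C.L, jC v ∈ W.L) :
    AM Q W (∑ i, {mp jA (BA.b.coord (φA, i))} + ∑ i, {mp jB (BB.b.coord (φB, i))} +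
      ∑ i, {mp jC (BC.b.coord (φC, i))}) := by
  obtain ⟨P1⟩ := pL0 A B
  obtain ⟨iA, iB, h1, a1, b1, c1, d1, e1⟩ := pd_hom P1 W jA jB lA lB
  obtain ⟨P2⟩ := pL0 P1.T C
  obtain ⟨i1, iC, h, a2, b2, c2, d2, e2⟩ := pd_hom P2 W h1 jC c1 lC
  have lat1 : ∀ v ∈ P1.T.L, i1 v ∈ P2.T.L := fun v hv => (P2.lat _).2 (by
    rw [a2]
    exact ⟨hv, C.L.zero_mem⟩)
  have latC : ∀ v ∈ C.L, iC v ∈ P2.T.L := fun v hv => (P2.lat _).2 (by
    rw [b2]
    exact ⟨P1.T.L.zero_mem, hv⟩)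
  have latA : ∀ v ∈ A.L, (i1 ∘ₗ iA) v ∈ P2.T.L := fun v hv => lat1 _ ((P1.lat _).2 (by
    rw [a1]
    exact ⟨hv, B.L.zero_mem⟩))
  have latB : ∀ v ∈ B.L, (i1 ∘ₗ iB) v ∈ P2.T.L := fun v hv => lat1 _ ((P1.lat _).2 (by
    rw [b1]
    exact ⟨A.L.zero_mem, hv⟩))
  obtain ⟨eA, gA, sA⟩ := Gc.blk BA pA φA P2.T (i1 ∘ₗ iA) latA
  obtain ⟨eB, gB, sB⟩ := Gc.blk BB pB φB P2.T (i1 ∘ₗ iB) latB
  obtain ⟨eC, gC, sC⟩ := Gc.blk BC pC φC P2.T iC latC
  have hP : HCj P2.T := fun m c hc => hHC P2.T (isCM_pd P2 (isCM_pd P1 hA hB) hC) m c hc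
  have h3 := ((gA.append gB).append gC).alg hP (fun g => by
    rw [sum_append, sum_append, sA, sB, sC]
    exact bal g) 1
  have h4 := (AM.mk _ (hQ.base h3)).push hQ h c2
  rw [sing_append, sing_append, Multiset.map_add, Multiset.map_add, map_sum_sing, map_sum_sing,
    map_sum_sing] at h4
  have f1 : ∀ x : H1 A, mp h (mp (i1 ∘ₗ iA) x) = mp jA x := fun x => by
    rw [mp_mp, ← LinearMap.comp_assoc, d2, d1]
  have f2 : ∀ x : H1 B, mp h (mp (i1 ∘ₗ iB) x) = mp jB x := fun x => by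
    rw [mp_mp, ← LinearMap.comp_assoc, d2, e1]
  have f3 : ∀ x : H1 C, mp h (mp iC x) = mp jC x := fun x => by
    rw [mp_mp, e2]
  simp only [f1, f2, f3, gl_one] at h4
  exact h4

end S6
end SE
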