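import Pool.Agent.Lib.SE.S6.BlkR
import Pool.Agent.Lib.SE.S6.Gc

/-!
# PROJECT SE, part S6 (helper96): eigenforms, determinants under an isogeny `J → T × T'`
-/

set_option autoImplicit false

open HC

noncomputable section

namespace SE
namespace S6

variable {X : GF} {T : AV} {E : Type} [Field E] [NumberField E] {r : ℕ}

/-- An eigenform for the label `φ'` has no components with other labels. -/
theorem eig_coord (B : Blk X T E r) (φ' : E →+* X.K) (a : T.V →ₗ[ℝ] ℂ)
    (ha : ∀ x v, a (B.ρ x v) = X.τ (φ' x) * a v) (φ : E →+* X.K) (h : φ ≠ φ') (i : Fin r) :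
    B.b.coord (φ, i) a = 0 := by
  obtain ⟨x, hx⟩ : ∃ x, φ x ≠ φ' x := by
    by_contra hne
    exact h (RingHom.ext fun x => not_not.1 fun hx => hne ⟨x, hx⟩)
  have h1 : ∑ s, (B.b.coord s a * (X.τ (s.1 x) - X.τ (φ' x))) • B.b s = 0 := by
    refine LinearMap.ext fun v => ?_
    have h2 : ∀ w, a w = ∑ s, B.b.coord s a * B.b s w := by
      intro w
      conv_lhs => rw [← B.b.sum_repr a]
      rw [LinearMap.sum_apply]
      rfl
    have h3 := ha x v
    rw [h2 (B.ρ x v), h2 v, Finset.mul_sum, ← sub_eq_zero, ← Finset.sum_sub_distrib] at h3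
    rw [LinearMap.sum_apply, LinearMap.zero_apply, ← h3]
    refine Finset.sum_congr rfl fun s _ => ?_
    have h4 := B.act s.1 s.2 x v
    have h5 : B.b s (B.ρ x v) = X.τ (s.1 x) * B.b s v := h4
    rw [LinearMap.smul_apply, smul_eq_mul, h5]
    ring
  have h6 := (Fintype.linearIndependent_iff.1 B.b.linearIndependent _ h1) (φ, i)
  have h7 : X.τ (φ x) - X.τ (φ' x) ≠ 0 := fun h8 => hx (X.τ.injective (sub_eq_zero.1 h8))
  exact (mul_eq_zero.1 h6).resolve_right h7

/-- The product of linear combinations. -/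
theorem wdg_lin {W : AV} {m : ℕ} (x y : Fin m → H1 W) (M : Matrix (Fin m) (Fin m) ℂ)
    (h : ∀ i, y i = ∑ j, M i j • x j) : wdg y = M.det • wdg x := by
  ext a
  rw [AlternatingMap.smul_apply, tWdg.1, tWdg.1, smul_eq_mul]
  have h1 : (Matrix.of fun i j => y j (a i)) = (Matrix.of fun i j => x j (a i)) * M.transpose := by
    ext i j
    rw [Matrix.mul_apply, Matrix.of_apply, h j, LinearMap.sum_apply]
    refine Finset.sum_congr rfl fun k _ => ?_
    rw [LinearMap.smul_apply, smul_eq_mul, Matrix.of_apply, Matrix.transpose_apply, mul_comm]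
  rw [h1, Matrix.det_mul, Matrix.det_transpose, mul_comm]

variable {Q : (T : AV) → (m : ℕ) → Hlg T m → Prop}

theorem pont_smul {W : AV} {m n : ℕ} (k : ℂ) (c : Hlg W m) (d : Hlg W n) :
    HC.pont (k • c) d = k • HC.pont c d := by
  have h1 : (k • c).domCoprod d = k • c.domCoprod d := by
    rw [← AlternatingMap.domCoprod'_apply, ← AlternatingMap.domCoprod'_apply,
      ← TensorProduct.smul_tmul', map_smul]
  unfold HC.pont
  rw [h1]
  ext a
  show LinearMap.mul' ℂ ℂ ((k • c.domCoprod d) _) = k * LinearMap.mul' ℂ ℂ (c.domCoprod d _)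
  rw [AlternatingMap.smul_apply, map_smul, smul_eq_mul]

/-- Change of basis in a multiset. -/
theorem AM.lin (hQ : Cl Q) {W : AV} {m : ℕ} {ι : Type} [Fintype ι] (x : ι → H1 W)
    (y : Fin m → H1 W) (M : Fin m → ι → ℂ) (h : ∀ i, y i = ∑ j, M i j • x j)
    (hc : m = Fintype.card ι) (hM : ∀ c : ι → ℂ, (∀ i, ∑ j, M i j * c j = 0) → c = 0)
    (s : Multiset (H1 W)) (hy : AM Q W (∑ i, {y i} + s)) : AM Q W (∑ j, {x j} + s) := by
  classical
  obtain ⟨e⟩ : Nonempty (Fin m ≃ ι) := ⟨Fintype.equivOfCardEq (by rw [Fintype.card_fin, hc])⟩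
  obtain ⟨n, z, rfl⟩ : ∃ (n : ℕ) (z : Fin n → H1 W), Finset.univ.val.map z = s := by
    induction s using Quotient.inductionOn with
    | h l =>
      refine ⟨l.length, l.get, ?_⟩
      rw [Fin.univ_val_map, List.ofFn_get]
      rfl
  rw [← sum_sing, ← sing_append] at hy
  have h1 := hy.q hQ
  have hdet : (Matrix.of fun i j => M i (e j)).det ≠ 0 := by
    intro h0
    obtain ⟨v, hv, hv0⟩ := Matrix.exists_mulVec_eq_zero_iff.2 h0
    apply hv
    have h2 := hM (fun j => v (e.symm j)) (fun i => by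
      have h3 := congrFun hv0 i
      rw [Matrix.mulVec, dotProduct] at h3
      refine Eq.trans (Fintype.sum_equiv e _ _ fun j => ?_).symm h3
      rw [Equiv.symm_apply_apply, Matrix.of_apply])
    funext j
    have h3 := congrFun h2 (e j)
    rw [Equiv.symm_apply_apply] at h3
    exact h3
  have h2 : wdg (Fin.append y z) = (Matrix.of fun i j => M i (e j)).det •
      wdg (Fin.append (fun j => x (e j)) z) := by
    rw [← tWdg.2.2.1, ← tWdg.2.2.1, wdg_lin (fun j => x (e j)) y (Matrix.of fun i j => M i (e j))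
      (fun i => by
        rw [h i]
        exact (Fintype.sum_equiv e _ _ fun j => rfl).symm)]
    exact pont_smul _ _ _
  rw [h2] at h1
  have h3 := hQ.smul (Matrix.of fun i j => M i (e j)).det⁻¹ h1
  rw [smul_smul, inv_mul_cancel₀ hdet, one_smul] at h3
  have h4 := AM.mk _ h3
  rw [sing_append] at h4
  refine h4.sub ?_
  rw [sum_sing z]
  congr 1
  exact Fintype.sum_equiv e _ _ fun j => rfl

end S6
end SE
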