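import Pool.Agent.Lib.SE.S6.Eig
import Pool.Agent.Lib.SE.S6.Ctr

/-!
# PROJECT SE, part S6 (helper96): an isogeny `J → T × T'` of abelian varieties with multiplication

`Isd`: the data. `MM`: the matrix of `H^1(T)_φ ⊕ H^1(T')_φ → H^1(J)_φ`; it is invertible; the
traces of `i` are additive.
-/

set_option autoImplicit false

open HC

noncomputable section

namespace SE
namespace S6

variable {X : GF}

/-- An isogeny `J → T × T'`, compatible with the multiplications; `e` identifies the fields. -/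
structure Isd {J T T' : AV} {E₁ E : Type} [Field E₁] [NumberField E₁] [Field E] [NumberField E]
    {r₁ r r' : ℕ} (B₁ : Blk X J E₁ r₁) (B : Blk X T E r) (B' : Blk X T' E r') where
  e : E ≃+* E₁
  π : J.V →ₗ[ℂ] T.V
  π' : J.V →ₗ[ℂ] T'.V
  lift : ∀ u u', ∃ v, π v = u ∧ π' v = u'
  inj : ∀ v, π v = 0 → π' v = 0 → v = 0
  ρπ : ∀ x v, π (B₁.ρ (e x) v) = B.ρ x (π v)
  ρπ' : ∀ x v, π' (B₁.ρ (e x) v) = B'.ρ x (π' v)

variable {J T T' : AV} {E₁ E : Type} [Field E₁] [NumberField E₁] [Field E] [NumberField E]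
  {r₁ r r' : ℕ} {B₁ : Blk X J E₁ r₁} {B : Blk X T E r} {B' : Blk X T' E r'}

/-- The label of `E₁`. -/
def Isd.l (D : Isd B₁ B B') (φ : E →+* X.K) : E₁ →+* X.K := φ.comp (D.e.symm : E₁ →+* E)

theorem Isd.l_apply (D : Isd B₁ B B') (φ : E →+* X.K) (x : E₁) : D.l φ x = φ (D.e.symm x) := rfl

theorem Isd.l_inj (D : Isd B₁ B B') {φ ψ : E →+* X.K} (h : D.l φ = D.l ψ) : φ = ψ := by
  ext x
  have h1 := RingHom.congr_fun h (D.e x)
  rw [D.l_apply, D.l_apply, RingEquiv.symm_apply_apply] at h1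
  exact h1

theorem Isd.l_gl (D : Isd B₁ B B') (g : X.G) (φ : E →+* X.K) : D.l (gl g φ) = gl g (D.l φ) := rfl

/-- The pulled back form. -/
def Isd.Ps (D : Isd B₁ B B') (φ : E →+* X.K) : Fin r ⊕ Fin r' → (J.V →ₗ[ℝ] ℂ)
  | Sum.inl j => B.b (φ, j) ∘ₗ D.π.restrictScalars ℝ
  | Sum.inr j => B'.b (φ, j) ∘ₗ D.π'.restrictScalars ℝ

theorem Isd.Ps_eig (D : Isd B₁ B B') (φ : E →+* X.K) (s : Fin r ⊕ Fin r') (x : E₁) (v : J.V) :
    D.Ps φ s (B₁.ρ x v) = X.τ (D.l φ x) * D.Ps φ s v := by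
  rcases s with j | j
  · show B.b (φ, j) (D.π (B₁.ρ x v)) = X.τ (D.l φ x) * B.b (φ, j) (D.π v)
    have h := D.ρπ (D.e.symm x) v
    rw [RingEquiv.apply_symm_apply] at h
    rw [h, B.act]
    rfl
  · show B'.b (φ, j) (D.π' (B₁.ρ x v)) = X.τ (D.l φ x) * B'.b (φ, j) (D.π' v)
    have h := D.ρπ' (D.e.symm x) v
    rw [RingEquiv.apply_symm_apply] at h
    rw [h, B'.act]
    rfl

/-- The matrix. -/
def Isd.M (D : Isd B₁ B B') (φ : E →+* X.K) (i : Fin r₁) (s : Fin r ⊕ Fin r') : ℂ :=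
  B₁.b.coord (D.l φ, i) (D.Ps φ s)

/-- A form whose `φ`-components vanish and which is an eigenform is zero. -/
theorem eig_zero (B : Blk X T E r) (φ : E →+* X.K) (a : T.V →ₗ[ℝ] ℂ)
    (ha : ∀ x v, a (B.ρ x v) = X.τ (φ x) * a v) (h : ∀ i, B.b.coord (φ, i) a = 0) : a = 0 := by
  apply B.b.repr.injective
  rw [map_zero]
  ext s
  by_cases hs : s.1 = φ
  · have h1 := h s.2
    rw [← hs] at h1
    exact h1
  · exact eig_coord B φ a ha s.1 hs s.2

/-- Expansion of an eigenform. -/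
theorem eig_exp (B : Blk X T E r) (φ : E →+* X.K) (a : T.V →ₗ[ℝ] ℂ)
    (ha : ∀ x v, a (B.ρ x v) = X.τ (φ x) * a v) :
    a = ∑ i, B.b.coord (φ, i) a • B.b (φ, i) := by
  apply sub_eq_zero.1
  refine eig_zero B φ _ (fun x v => ?_) fun i => ?_
  · rw [LinearMap.sub_apply, LinearMap.sub_apply, ha, LinearMap.sum_apply, LinearMap.sum_apply,
      mul_sub, Finset.mul_sum]
    congr 1
    refine Finset.sum_congr rfl fun i _ => ?_
    rw [LinearMap.smul_apply, LinearMap.smul_apply, B.act, smul_eq_mul, smul_eq_mul]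
    ring
  · rw [map_sub, map_sum, Finset.sum_eq_single i]
    · rw [map_smul, Module.Basis.coord_apply, Module.Basis.coord_apply, Module.Basis.repr_self,
        Finsupp.single_eq_same, smul_eq_mul, mul_one, sub_self]
    · intro j _ hj
      rw [map_smul, Module.Basis.coord_apply, Module.Basis.coord_apply, Module.Basis.repr_self,
        Finsupp.single_eq_of_ne, smul_zero]
      exact fun h => hj (congrArg Prod.snd h).symm
    · intro h
      exact absurd (Finset.mem_univ i) h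

/-- The matrix has trivial kernel. -/
theorem Isd.ker (D : Isd B₁ B B') (φ : E →+* X.K) (c : Fin r ⊕ Fin r' → ℂ)
    (h : ∀ i, ∑ s, D.M φ i s * c s = 0) : c = 0 := by
  have h1 : ∑ s, c s • D.Ps φ s = 0 := by
    refine eig_zero B₁ (D.l φ) _ (fun x v => ?_) fun i => ?_
    · rw [LinearMap.sum_apply, LinearMap.sum_apply, Finset.mul_sum]
      refine Finset.sum_congr rfl fun s _ => ?_
      rw [LinearMap.smul_apply, LinearMap.smul_apply, D.Ps_eig, smul_eq_mul, smul_eq_mul]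
      ring
    · rw [map_sum, ← h i]
      refine Finset.sum_congr rfl fun s _ => ?_
      rw [map_smul, smul_eq_mul, mul_comm]
      rfl
  rw [Fintype.sum_sum_type] at h1
  have h2 : ∑ j, c (Sum.inl j) • B.b (φ, j) = 0 := by
    refine LinearMap.ext fun u => ?_
    obtain ⟨v, hv, hv'⟩ := D.lift u 0
    have h3 := LinearMap.congr_fun h1 v
    rw [LinearMap.add_apply, LinearMap.sum_apply, LinearMap.sum_apply] at h3
    have h4 : ∑ j, (c (Sum.inr j) • D.Ps φ (Sum.inr j)) v = 0 := by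
      refine Finset.sum_eq_zero fun j _ => ?_
      show c (Sum.inr j) * B'.b (φ, j) (D.π' v) = 0
      rw [hv', map_zero, mul_zero]
    rw [h4, add_zero] at h3
    rw [LinearMap.sum_apply]
    refine Eq.trans (Finset.sum_congr rfl fun j _ => ?_) h3
    show c (Sum.inl j) * B.b (φ, j) u = c (Sum.inl j) * B.b (φ, j) (D.π v)
    rw [hv]
  have h3 : ∑ j, c (Sum.inr j) • B'.b (φ, j) = 0 := by
    refine LinearMap.ext fun u => ?_
    obtain ⟨v, hv, hv'⟩ := D.lift 0 u
    have h3 := LinearMap.congr_fun h1 v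
    rw [LinearMap.add_apply, LinearMap.sum_apply, LinearMap.sum_apply] at h3
    have h4 : ∑ j, (c (Sum.inl j) • D.Ps φ (Sum.inl j)) v = 0 := by
      refine Finset.sum_eq_zero fun j _ => ?_
      show c (Sum.inl j) * B.b (φ, j) (D.π v) = 0
      rw [hv, map_zero, mul_zero]
    rw [h4, zero_add] at h3
    rw [LinearMap.sum_apply]
    refine Eq.trans (Finset.sum_congr rfl fun j _ => ?_) h3
    show c (Sum.inr j) * B'.b (φ, j) u = c (Sum.inr j) * B'.b (φ, j) (D.π' v)
    rw [hv']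
  have i1 : Function.Injective fun j : Fin r => (φ, j) := fun j j' h => congrArg Prod.snd h
  have i2 : Function.Injective fun j : Fin r' => (φ, j) := fun j j' h => congrArg Prod.snd h
  have l1 := Fintype.linearIndependent_iff.1 (B.b.linearIndependent.comp _ i1) _ h2
  have l2 := Fintype.linearIndependent_iff.1 (B'.b.linearIndependent.comp _ i2) _ h3
  funext s
  rcases s with j | j
  · exact l1 j
  · exact l2 j

/-- The ranks. -/
theorem Isd.rank (D : Isd B₁ B B') (φ : E →+* X.K) : r₁ = Fintype.card (Fin r ⊕ Fin r') := by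
  classical
  have key : ∀ {A : AV} {F : Type} [Field F] [NumberField F] {k : ℕ} (C : Blk X A F k),
      Module.finrank ℝ A.V = Fintype.card (F →+* X.K) * k := by
    intro A F _ _ k C
    have h1 := Module.finrank_eq_card_basis C.b
    rw [Fintype.card_prod, Fintype.card_fin] at h1
    rw [← h1]
    have h2 : Module.finrank ℂ (A.V →ₗ[ℝ] ℂ) = Module.finrank ℝ A.V * Module.finrank ℂ ℂ :=
      Module.finrank_linearMap ℝ ℂ A.V ℂ
    rw [h2, Module.finrank_self, mul_one]
  have hc : Fintype.card (E₁ →+* X.K) = Fintype.card (E →+* X.K) := by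
    refine Fintype.card_congr ⟨fun ψ => ψ.comp (D.e : E →+* E₁), fun ψ => D.l ψ, fun ψ => ?_,
      fun ψ => ?_⟩
    · ext x
      show ψ (D.e (D.e.symm x)) = ψ x
      rw [RingEquiv.apply_symm_apply]
    · ext x
      show ψ (D.e.symm (D.e x)) = ψ x
      rw [RingEquiv.symm_apply_apply]
  have hV : Module.finrank ℝ J.V = Module.finrank ℝ T.V + Module.finrank ℝ T'.V := by
    rw [← Module.finrank_prod]
    refine LinearEquiv.finrank_eq (LinearEquiv.ofBijective
      ((D.π.prod D.π').restrictScalars ℝ) ⟨?_, ?_⟩)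
    · intro v w hvw
      have h1 : D.π v = D.π w := congrArg Prod.fst hvw
      have h2 : D.π' v = D.π' w := congrArg Prod.snd hvw
      apply sub_eq_zero.1
      exact D.inj _ (by rw [map_sub, h1, sub_self]) (by rw [map_sub, h2, sub_self])
    · rintro ⟨u, u'⟩
      obtain ⟨v, hv, hv'⟩ := D.lift u u'
      exact ⟨v, Prod.ext hv hv'⟩
  rw [key B₁, key B, key B', hc, ← mul_add] at hV
  have hpos : 0 < Fintype.card (E →+* X.K) := Fintype.card_pos_iff.2 ⟨φ⟩
  rw [Fintype.card_sum, Fintype.card_fin, Fintype.card_fin]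
  exact Nat.eq_of_mul_eq_mul_left hpos hV

/-- The traces are additive. -/
theorem Isd.delta (D : Isd B₁ B B') (φ : E →+* X.K) : B₁.δ (D.l φ) = B.δ φ + B'.δ φ := by
  classical
  obtain ⟨en⟩ : Nonempty (Fin r₁ ≃ Fin r ⊕ Fin r') :=
    ⟨Fintype.equivOfCardEq (by rw [Fintype.card_fin, ← D.rank φ])⟩
  let M : Matrix (Fin r₁) (Fin r₁) ℂ := Matrix.of fun i j => D.M φ i (en j)
  let A₁ : Matrix (Fin r₁) (Fin r₁) ℂ :=
    Matrix.of fun k i => B₁.b.coord (D.l φ, k) (B₁.b (D.l φ, i) ∘ₗ mulI J)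
  let A : Matrix (Fin r ⊕ Fin r') (Fin r ⊕ Fin r') ℂ := Matrix.fromBlocks
    (Matrix.of fun k i => B.b.coord (φ, k) (B.b (φ, i) ∘ₗ mulI T)) 0 0
    (Matrix.of fun k i => B'.b.coord (φ, k) (B'.b (φ, i) ∘ₗ mulI T'))
  have hdet : M.det ≠ 0 := by
    intro h0
    obtain ⟨v, hv, hv0⟩ := Matrix.exists_mulVec_eq_zero_iff.2 h0
    apply hv
    have h2 := D.ker φ (fun j => v (en.symm j)) (fun i => by
      have h3 := congrFun hv0 i
      rw [Matrix.mulVec, dotProduct] at h3
      refine Eq.trans (Fintype.sum_equiv en _ _ fun j => ?_).symm h3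
      rw [Equiv.symm_apply_apply]
      rfl)
    funext j
    have h3 := congrFun h2 (en j)
    rw [Equiv.symm_apply_apply] at h3
    exact h3
  have hcomm : ∀ {C : AV} {F : Type} [Field F] [NumberField F] {k : ℕ} (BC : Blk X C F k)
      (ψ : F →+* X.K) (a : C.V →ₗ[ℝ] ℂ), (∀ x v, a (BC.ρ x v) = X.τ (ψ x) * a v) →
      ∀ x v, (a ∘ₗ mulI C) (BC.ρ x v) = X.τ (ψ x) * (a ∘ₗ mulI C) v := by
    intro C F _ _ k BC ψ a ha x v
    show a (Complex.I • BC.ρ x v) = X.τ (ψ x) * a (Complex.I • v)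
    rw [← ha, LinearMap.map_smul]
  have hPs : ∀ s, D.Ps φ s ∘ₗ mulI J = ∑ s', A s' s • D.Ps φ s' := by
    intro s
    rcases s with j | j
    · have h1 := eig_exp B φ (B.b (φ, j) ∘ₗ mulI T) (hcomm B φ _ fun x v => B.act φ j x v)
      rw [Fintype.sum_sum_type]
      have h2 : ∑ j', A (Sum.inr j') (Sum.inl j) • D.Ps φ (Sum.inr j') = 0 :=
        Finset.sum_eq_zero fun j' _ => by
          show (0 : ℂ) • _ = _
          rw [zero_smul]
      rw [h2, add_zero]
      refine LinearMap.ext fun v => ?_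
      have h3 := LinearMap.congr_fun h1 (D.π v)
      have h4 : (D.Ps φ (Sum.inl j) ∘ₗ mulI J) v = (B.b (φ, j) ∘ₗ mulI T) (D.π v) := by
        show B.b (φ, j) (D.π (Complex.I • v)) = B.b (φ, j) (Complex.I • D.π v)
        rw [D.π.map_smul]
      rw [h4, h3, LinearMap.sum_apply, LinearMap.sum_apply]
      rfl
    · have h1 := eig_exp B' φ (B'.b (φ, j) ∘ₗ mulI T') (hcomm B' φ _ fun x v => B'.act φ j x v)
      rw [Fintype.sum_sum_type]
      have h2 : ∑ j', A (Sum.inl j') (Sum.inr j) • D.Ps φ (Sum.inl j') = 0 :=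
        Finset.sum_eq_zero fun j' _ => by
          show (0 : ℂ) • _ = _
          rw [zero_smul]
      rw [h2, zero_add]
      refine LinearMap.ext fun v => ?_
      have h3 := LinearMap.congr_fun h1 (D.π' v)
      have h4 : (D.Ps φ (Sum.inr j) ∘ₗ mulI J) v = (B'.b (φ, j) ∘ₗ mulI T') (D.π' v) := by
        show B'.b (φ, j) (D.π' (Complex.I • v)) = B'.b (φ, j) (Complex.I • D.π' v)
        rw [D.π'.map_smul]
      rw [h4, h3, LinearMap.sum_apply, LinearMap.sum_apply]
      rfl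
  have hMA : M * A.submatrix en en = A₁ * M := by
    ext k j
    rw [Matrix.mul_apply, Matrix.mul_apply]
    have h1 : ∑ i, M k i * A.submatrix en en i j =
        B₁.b.coord (D.l φ, k) (D.Ps φ (en j) ∘ₗ mulI J) := by
      rw [hPs, map_sum]
      refine Fintype.sum_equiv en _ _ fun i => ?_
      rw [map_smul, smul_eq_mul, mul_comm]
      rfl
    have h2 : D.Ps φ (en j) ∘ₗ mulI J = ∑ i, M i j • (B₁.b (D.l φ, i) ∘ₗ mulI J) := by
      have h3 := eig_exp B₁ (D.l φ) (D.Ps φ (en j)) (D.Ps_eig φ (en j))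
      refine LinearMap.ext fun v => ?_
      have h4 := LinearMap.congr_fun h3 (mulI J v)
      rw [LinearMap.sum_apply] at h4 ⊢
      exact h4
    rw [h1, h2, map_sum]
    refine Finset.sum_congr rfl fun i _ => ?_
    rw [map_smul, smul_eq_mul, mul_comm]
    rfl
  have hu : IsUnit M.det := isUnit_iff_ne_zero.2 hdet
  have h5 : A.submatrix en en = M⁻¹ * (A₁ * M) := by
    rw [← hMA, ← Matrix.mul_assoc, Matrix.nonsing_inv_mul M hu, Matrix.one_mul]
  have h6 : (A.submatrix en en).trace = A₁.trace := by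
    rw [h5, Matrix.trace_mul_comm, Matrix.mul_assoc, Matrix.mul_nonsing_inv M hu, Matrix.mul_one]
  have h7 : (A.submatrix en en).trace = A.trace := by
    rw [Matrix.trace, Matrix.trace]
    exact Fintype.sum_equiv en _ _ fun i => rfl
  have h8 : A.trace = B.δ φ + B'.δ φ := by
    rw [Matrix.trace, Fintype.sum_sum_type]
    rfl
  rw [← h8, ← h7, h6]
  rfl

end S6
end SE
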