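import Pool.Agent.Lib.HC.B.Main
import Pool.Agent.Lib.SE.W.Defs

/-!
# PROJECT SE, part S6 (helper96): multisets of homology classes of degree 1

* `H1 T`: the space `H_1(T, ℂ)`, the dual of the space of real linear functions `T.V → ℂ`.
* `AM Q T s`, `s` a multiset of elements of `H_1(T, ℂ)`: their product is in `Q`.
-/

set_option autoImplicit false

noncomputable section

namespace SE
namespace S6

open HC

/-- `H_1(T, ℂ)`. -/
abbrev H1 (T : AV) : Type := (T.V →ₗ[ℝ] ℂ) →ₗ[ℂ] ℂ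

/-- The image in homology of degree 1. -/
def mp {T T' : AV} (φ : T.V →ₗ[ℂ] T'.V) (x : H1 T) : H1 T' := x ∘ₗ pull φ

theorem mp_apply {T T' : AV} (φ : T.V →ₗ[ℂ] T'.V) (x : H1 T) (a : T'.V →ₗ[ℝ] ℂ) :
    mp φ x a = x (a ∘ₗ φ.restrictScalars ℝ) := rfl

theorem mp_mp {T T' T'' : AV} (φ : T.V →ₗ[ℂ] T'.V) (ψ : T'.V →ₗ[ℂ] T''.V) (x : H1 T) :
    mp ψ (mp φ x) = mp (ψ ∘ₗ φ) x := rfl

/-- Two families with the same values differ by a permutation. -/
theorem exists_perm {α : Type*} {m : ℕ} {f g : Fin m → α}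
    (h : (Finset.univ.val.map f : Multiset α) = Finset.univ.val.map g) :
    ∃ σ : Equiv.Perm (Fin m), f = g ∘ σ := by
  classical
  have h1 : ∀ a, Fintype.card {i // f i = a} = Fintype.card {i // g i = a} := by
    intro a
    have h2 := congrArg (Multiset.count a) h
    rw [Multiset.count_map, Multiset.count_map] at h2
    rw [Fintype.card_subtype, Fintype.card_subtype, Finset.card_def, Finset.card_def,
      Finset.filter_val, Finset.filter_val]
    rw [Multiset.filter_congr (p := fun i => f i = a) (q := fun i => a = f i)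
      (fun i _ => eq_comm), Multiset.filter_congr (p := fun i => g i = a) (q := fun i => a = g i)
      (fun i _ => eq_comm)]
    exact h2
  have e : ∀ a, {i // f i = a} ≃ {i // g i = a} := fun a => Fintype.equivOfCardEq (h1 a)
  refine ⟨(Equiv.sigmaFiberEquiv f).symm.trans ((Equiv.sigmaCongrRight e).trans
    (Equiv.sigmaFiberEquiv g)), ?_⟩
  funext i
  exact ((e (f i) ⟨i, rfl⟩).2).symm

variable {Q : (T : AV) → (m : ℕ) → Hlg T m → Prop}

/-- The product of the members of the multiset `s` is in `Q`. -/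
def AM (Q : (T : AV) → (m : ℕ) → Hlg T m → Prop) (T : AV) (s : Multiset (H1 T)) : Prop :=
  ∃ (m : ℕ) (x : Fin m → H1 T), (Finset.univ.val.map x : Multiset (H1 T)) = s ∧ Q T m (wdg x)

theorem AM.all (hQ : Cl Q) {T : AV} {s : Multiset (H1 T)} (h : AM Q T s) {m : ℕ}
    (x : Fin m → H1 T) (hx : (Finset.univ.val.map x : Multiset (H1 T)) = s) : Q T m (wdg x) := by
  obtain ⟨n, y, hy, hc⟩ := h
  have h1 : n = m := by
    have h2 := congrArg Multiset.card (hy.trans hx.symm)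
    simpa using h2
  subst h1
  obtain ⟨σ, hσ⟩ := exists_perm (hx.trans hy.symm)
  rw [hσ, tWdg.2.2.2.2]
  have h3 : (Equiv.Perm.sign σ • wdg y : Hlg T n) = (((Equiv.Perm.sign σ : ℤ) : ℂ)) • wdg y := by
    rw [Int.cast_smul_eq_zsmul]
    rfl
  rw [h3]
  exact hQ.smul _ hc

theorem sum_sing {α β : Type*} [Fintype β] (x : β → α) :
    (∑ i, ({x i} : Multiset α)) = Finset.univ.val.map x := by
  show ((Finset.univ.val.map fun i => ({x i} : Multiset α))).sum = _
  have h := Multiset.sum_map_singleton (Finset.univ.val.map x)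
  rw [Multiset.map_map] at h
  exact h

theorem AM.mk {T : AV} {m : ℕ} (x : Fin m → H1 T) (h : Q T m (wdg x)) :
    AM Q T (∑ i, {x i}) :=
  ⟨m, x, (sum_sing x).symm, h⟩

/-- For a finite index type. -/
theorem AM.q (hQ : Cl Q) {T : AV} {m : ℕ} {x : Fin m → H1 T} (h : AM Q T (∑ i, {x i})) :
    Q T m (wdg x) :=
  h.all hQ x (sum_sing x).symm

theorem AM.sub {T : AV} {s t : Multiset (H1 T)} (h : AM Q T s) (e : s = t) : AM Q T t := e ▸ h

/-- The product of two. -/
theorem AM.add (hQ : Cl Q) {T : AV} {s t : Multiset (H1 T)} (hs : AM Q T s) (ht : AM Q T t) :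
    AM Q T (s + t) := by
  obtain ⟨m, x, hx, hc⟩ := hs
  obtain ⟨n, y, hy, hd⟩ := ht
  refine ⟨m + n, Fin.append x y, ?_, ?_⟩
  · rw [← hx, ← hy, Fin.univ_val_map, Fin.univ_val_map, Fin.univ_val_map, List.ofFn_fin_append]
    rfl
  · rw [← tWdg.2.2.1]
    exact hQ.pont hc hd

/-- The image. -/
theorem AM.push (hQ : Cl Q) {T T' : AV} (φ : T.V →ₗ[ℂ] T'.V) (hφ : ∀ x ∈ T.L, φ x ∈ T'.L)
    {s : Multiset (H1 T)} (hs : AM Q T s) : AM Q T' (s.map (mp φ)) := by
  obtain ⟨m, x, hx, hc⟩ := hs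
  refine ⟨m, fun i => mp φ (x i), ?_, ?_⟩
  · rw [← hx, Multiset.map_map]
    rfl
  · have h := hQ.push φ hφ hc
    rw [tWdg.2.1] at h
    exact h

/-- The expansion in the first row. -/
theorem curry_cons {T : AV} {m : ℕ} (x0 : H1 T) (x : Fin m → H1 T) (z : T.V →ₗ[ℝ] ℂ)
    (h : ∀ j, x j z = 0) :
    (wdg (Fin.cons x0 x : Fin (m + 1) → H1 T)).curryLeft z = x0 z • wdg x := by
  ext a
  rw [AlternatingMap.curryLeft_apply_apply, AlternatingMap.smul_apply, tWdg.1, tWdg.1,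
    Matrix.det_succ_row_zero, Fin.sum_univ_succ]
  have h0 : ∀ j : Fin m, Matrix.of (fun i j => (Fin.cons x0 x : Fin (m + 1) → H1 T) j
      (Matrix.vecCons z a i)) 0 j.succ = 0 := fun j => by
    simp [h j]
  rw [Finset.sum_eq_zero fun j _ => by rw [h0]; ring]
  simp only [Fin.val_zero, pow_zero, one_mul, add_zero, Matrix.of_apply, Fin.cons_zero,
    Matrix.cons_val_zero, smul_eq_mul]
  rfl

/-- The intersection with a divisor. -/
theorem cap_wdg {T : AV} {m r : ℕ} (p q : Fin r → (T.V →ₗ[ℝ] ℂ)) (x y : H1 T)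
    (z : Fin m → H1 T) (hy : ∀ j, y (p j) = 0) (hzp : ∀ j i, z i (p j) = 0)
    (hzq : ∀ j i, z i (q j) = 0) :
    cap p q (wdg (Fin.cons x (Fin.cons y z : Fin (m + 1) → H1 T) : Fin (m + 2) → H1 T)) =
      (∑ j, x (p j) * y (q j)) • wdg z := by
  unfold cap
  rw [Finset.sum_smul]
  refine Finset.sum_congr rfl fun j _ => ?_
  rw [curry_cons x (Fin.cons y z : Fin (m + 1) → H1 T) (p j) (fun i => by
    refine Fin.cases ?_ (fun i => ?_) i
    · exact hy j
    · exact hzp j i)]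
  rw [mul_smul, ← curry_cons y z (q j) (hzq j)]
  rfl

/-- Removing a pair. -/
theorem AM.cap (hQ : Cl Q) {T : AV} {s : Multiset (H1 T)} (x y : H1 T)
    (hs : AM Q T ({x} + {y} + s)) {r : ℕ} (p q : Fin r → (T.V →ₗ[ℝ] ℂ)) (hd : IsDiv T p q)
    (hy : ∀ j, y (p j) = 0) (hsp : ∀ z ∈ s, ∀ j, z (p j) = 0) (hsq : ∀ z ∈ s, ∀ j, z (q j) = 0)
    (h0 : ∑ j, x (p j) * y (q j) ≠ 0) : AM Q T s := by
  obtain ⟨m, z, rfl⟩ : ∃ (m : ℕ) (z : Fin m → H1 T), Finset.univ.val.map z = s := by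
    induction s using Quotient.inductionOn with
    | h l =>
      refine ⟨l.length, l.get, ?_⟩
      rw [Fin.univ_val_map, List.ofFn_get]
      rfl
  have hz : ∀ i, z i ∈ (Finset.univ.val.map z : Multiset (H1 T)) := fun i =>
    Multiset.mem_map.2 ⟨i, Finset.mem_univ i, rfl⟩
  have h1 := hs.all hQ (Fin.cons x (Fin.cons y z : Fin (m + 1) → H1 T) : Fin (m + 2) → H1 T) (by
    rw [Fin.univ_val_map, Fin.univ_val_map, List.ofFn_succ, List.ofFn_succ]
    simp only [Fin.cons_zero, Fin.cons_succ]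
    rfl)
  have h2 := hQ.cap p q hd h1
  rw [cap_wdg p q x y z hy (fun j i => hsp _ (hz i) j) (fun j i => hsq _ (hz i) j)] at h2
  have h3 := hQ.smul (∑ j, x (p j) * y (q j))⁻¹ h2
  rw [smul_smul, inv_mul_cancel₀ h0, one_smul] at h3
  exact ⟨m, z, rfl, h3⟩

end S6
end SE
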