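import Pool.Agent.Lib.SE.S6.Prd

/-!
# PROJECT SE, part S6 (helper96): finite products of abelian varieties of CM type
-/

set_option autoImplicit false

open HC

noncomputable section

namespace SE
namespace S6

variable {P : Type} {B : P → AV}

/-- Products of abelian varieties of CM type. -/
theorem isCM_pdf [Fintype P] (h : ∀ p, IsCM (B p)) (C : PdF B) : IsCM C.T := by
  classical
  choose n E fE nE cE Φ hΦ ψ hψ using h
  obtain ⟨e⟩ : Nonempty (((p : P) × Fin (n p)) ≃ Fin (Fintype.card ((p : P) × Fin (n p)))) :=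
    ⟨Fintype.equivFin _⟩
  let e1 : ((k : Fin (Fintype.card ((p : P) × Fin (n p)))) ×
      Φ (e.symm k).1 (e.symm k).2) ≃ ((x : (p : P) × Fin (n p)) × Φ x.1 x.2) :=
    Equiv.sigmaCongrLeft (β := fun x : (p : P) × Fin (n p) => (Φ x.1 x.2 : Type)) e.symm
  let e2 : ((x : (p : P) × Fin (n p)) × Φ x.1 x.2) ≃ ((p : P) × (i : Fin (n p)) × Φ p i) :=
    Equiv.sigmaAssoc (fun (p : P) (i : Fin (n p)) => (Φ p i : Type))
  let ψ' : C.T.V ≃ₗ[ℂ] (((k : Fin (Fintype.card ((p : P) × Fin (n p)))) ×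
      Φ (e.symm k).1 (e.symm k).2) → ℂ) :=
    (C.ψ.trans (LinearEquiv.piCongrRight ψ)).trans
      ((LinearEquiv.piCurry ℂ (fun (p : P) (_ : (i : Fin (n p)) × Φ p i) => ℂ)).symm.trans
        (LinearEquiv.funCongrLeft ℂ ℂ (e1.trans e2)))
  refine ⟨Fintype.card ((p : P) × Fin (n p)), fun k => E (e.symm k).1 (e.symm k).2,
    fun k => fE (e.symm k).1 (e.symm k).2, fun k => nE (e.symm k).1 (e.symm k).2,
    fun k => cE (e.symm k).1 (e.symm k).2, fun k => Φ (e.symm k).1 (e.symm k).2,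
    fun k => hΦ (e.symm k).1 (e.symm k).2, ψ', fun v hv => ?_⟩
  choose y hy using fun p => hψ p (C.ψ v p) ((C.lat v).1 hv p)
  exact ⟨fun k => y (e.symm k).1 (e.symm k).2, fun k φ => hy (e.symm k).1 (e.symm k).2 φ⟩

end S6
end SE
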