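import Pool.Agent.Lib.SE.S6.Mul

/-!
# PROJECT SE, part S6 (helper96): finite products of abelian varieties
-/

set_option autoImplicit false

noncomputable section

namespace SE
namespace S6

open HC

/-- A copy of the product of the abelian varieties `B p`. -/
structure PdF {P : Type} (B : P → AV) where
  T : AV
  ψ : T.V ≃ₗ[ℂ] ((p : P) → (B p).V)
  lat : ∀ v, v ∈ T.L ↔ ∀ p, ψ v p ∈ (B p).L

/-- The product lattice. -/
private def lt {P : Type} (B : P → AV) : Submodule ℤ ((p : P) → (B p).V) :=
  Submodule.pi Set.univ fun p => (B p).L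

private theorem mem_lt {P : Type} (B : P → AV) (v : (p : P) → (B p).V) :
    v ∈ lt B ↔ ∀ p, v p ∈ (B p).L := by
  unfold lt
  rw [Submodule.mem_pi]
  exact ⟨fun h p => h p (Set.mem_univ p), fun h p _ => h p⟩

private theorem disc {P : Type} [Fintype P] (B : P → AV) : DiscreteTopology (lt B) := by
  have e : Topology.IsEmbedding (fun x : lt B => (fun p => ⟨x.1 p, (mem_lt B x.1).1 x.2 p⟩ :
      (p : P) → (B p).L)) := by
    refine ⟨⟨?_⟩, ?_⟩
    · have h1 : Topology.IsInducing (fun f : (p : P) → (B p).L => (fun p => (f p : (B p).V))) :=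
        Topology.IsInducing.piMap fun p => Topology.IsInducing.subtypeVal
      have h2 : Topology.IsInducing ((fun f : (p : P) → (B p).L => (fun p => (f p : (B p).V))) ∘
          (fun x : lt B => (fun p => ⟨x.1 p, (mem_lt B x.1).1 x.2 p⟩ : (p : P) → (B p).L))) :=
        Topology.IsInducing.subtypeVal
      exact (h1.of_comp_iff.1 h2).eq_induced
    · intro x y hxy
      apply Subtype.ext
      funext p
      exact congrArg (fun f : (p : P) → (B p).L => (f p : (B p).V)) hxy
  exact e.discreteTopology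

private theorem span {P : Type} [Fintype P] (B : P → AV) :
    Submodule.span ℝ ((lt B : Submodule ℤ ((p : P) → (B p).V)) : Set ((p : P) → (B p).V)) = ⊤ := by
  classical
  rw [eq_top_iff]
  rintro v -
  have h1 : v = ∑ p, Pi.single p (v p) := (Finset.univ_sum_single v).symm
  rw [h1]
  refine Submodule.sum_mem _ fun p _ => ?_
  have hp : v p ∈ Submodule.span ℝ ((B p).L : Set (B p).V) := by
    rw [(B p).latt.span_top]
    exact Submodule.mem_top
  generalize v p = w at hp
  induction hp using Submodule.span_induction with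
  | mem x hx =>
    refine Submodule.subset_span ((mem_lt B _).2 fun q => ?_)
    by_cases hq : q = p
    · subst hq
      rw [Pi.single_eq_same]
      exact hx
    · rw [Pi.single_eq_of_ne hq]
      exact (B q).L.zero_mem
  | zero =>
    rw [Pi.single_zero]
    exact Submodule.zero_mem _
  | add x y _ _ hx hy =>
    rw [Pi.single_add]
    exact Submodule.add_mem _ hx hy
  | smul r x _ hx =>
    have h2 : (Pi.single p (r • x) : (p : P) → (B p).V) = r • Pi.single p x := by
      rw [Pi.single_smul]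
    rw [h2]
    exact Submodule.smul_mem _ _ hx

/-- Finite products exist. -/
theorem exPdF {P : Type} [Fintype P] (B : P → AV) : Nonempty (PdF B) := by
  classical
  have hd : DiscreteTopology (lt B) := disc B
  have hl : IsZLattice ℝ (lt B) := ⟨span B⟩
  choose E hE1 hE2 hE3 hE4 using fun p => (B p).pol
  let F : ((p : P) → (B p).V) →ₗ[ℝ] ((p : P) → (B p).V) →ₗ[ℝ] ℝ :=
    ∑ p, (E p).compl₁₂ (LinearMap.proj p) (LinearMap.proj p)
  have hF : ∀ u v : (p : P) → (B p).V, F u v = ∑ p, E p (u p) (v p) := by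
    intro u v
    simp only [F, LinearMap.sum_apply]
    rfl
  refine ⟨{ T := { V := (p : P) → (B p).V, L := lt B, pol := ⟨F, ?_, ?_, ?_, ?_⟩ },
            ψ := LinearEquiv.refl ℂ ((p : P) → (B p).V), lat := fun v => mem_lt B v }⟩
  · intro u hu v hv
    choose n hn using fun p => hE1 p (u p) ((mem_lt B u).1 hu p) (v p) ((mem_lt B v).1 hv p)
    refine ⟨∑ p, n p, ?_⟩
    rw [hF]
    push_cast
    exact Finset.sum_congr rfl fun p _ => hn p
  · intro u v
    rw [hF, hF, ← Finset.sum_neg_distrib]
    exact Finset.sum_congr rfl fun p _ => hE2 p _ _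
  · intro u v
    rw [hF, hF]
    exact Finset.sum_congr rfl fun p _ => hE3 p _ _
  · intro v hv
    rw [hF]
    obtain ⟨p, hp⟩ : ∃ p, v p ≠ 0 := by
      by_contra h
      exact hv (funext fun p => not_not.1 fun hp => h ⟨p, hp⟩)
    refine Finset.sum_pos' (fun q _ => ?_) ⟨p, Finset.mem_univ p, hE4 p (v p) hp⟩
    by_cases hq : v q = 0
    · show 0 ≤ E q (Complex.I • v q) (v q)
      rw [hq, smul_zero, map_zero]
    · exact (hE4 q (v q) hq).le

variable {P : Type} {B : P → AV}

/-- The projection. -/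
def PdF.pr (C : PdF B) (p : P) : C.T.V →ₗ[ℂ] (B p).V :=
  (LinearMap.proj p : ((p : P) → (B p).V) →ₗ[ℂ] (B p).V) ∘ₗ C.ψ.toLinearMap

theorem PdF.pr_apply (C : PdF B) (p : P) (v : C.T.V) : C.pr p v = C.ψ v p := rfl

open Classical in
/-- The inclusion. -/
def PdF.inc (C : PdF B) (p : P) : (B p).V →ₗ[ℂ] C.T.V :=
  C.ψ.symm.toLinearMap ∘ₗ LinearMap.single ℂ (fun p => (B p).V) p

open Classical in
theorem PdF.inc_apply (C : PdF B) (p : P) (v : (B p).V) :
    C.inc p v = C.ψ.symm (Pi.single p v) := rfl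

theorem PdF.pr_lat (C : PdF B) (p : P) : ∀ v ∈ C.T.L, C.pr p v ∈ (B p).L :=
  fun v hv => (C.lat v).1 hv p

theorem PdF.inc_lat (C : PdF B) (p : P) : ∀ v ∈ (B p).L, C.inc p v ∈ C.T.L := by
  classical
  intro v hv
  refine (C.lat _).2 fun q => ?_
  rw [PdF.inc_apply, LinearEquiv.apply_symm_apply]
  by_cases hq : q = p
  · subst hq
    rw [Pi.single_eq_same]
    exact hv
  · rw [Pi.single_eq_of_ne hq]
    exact (B q).L.zero_mem

theorem PdF.pr_inc (C : PdF B) (p : P) : C.pr p ∘ₗ C.inc p = LinearMap.id := by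
  classical
  refine LinearMap.ext fun v => ?_
  show C.ψ (C.ψ.symm (Pi.single p v)) p = v
  rw [LinearEquiv.apply_symm_apply, Pi.single_eq_same]

theorem PdF.pr_inc_ne (C : PdF B) {p q : P} (h : p ≠ q) : C.pr p ∘ₗ C.inc q = 0 := by
  classical
  refine LinearMap.ext fun v => ?_
  show C.ψ (C.ψ.symm (Pi.single q v)) p = 0
  rw [LinearEquiv.apply_symm_apply, Pi.single_eq_of_ne h]

end S6
end SE
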